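import Pool.Agent.Lib.MP_0370b2_nt.CS.Defs

/-! Valuations, summability and additivity of the Carlitz exponential. -/

namespace Pool.Agent.CarlAn

open Finset WithZero Filter Topology Pool.Agent.Carl

variable (F : Type) [Field F]

theorem mem_nhds_zero_iff (s : Set (LaurentSeries F)) :
    s ∈ 𝓝 (0 : LaurentSeries F) ↔ ∃ n : ℤ, {x | Valued.v x ≤ exp n} ⊆ s := by
  rw [Valued.mem_nhds_zero]
  constructor
  · rintro ⟨γ, hγ⟩
    refine ⟨log (MonoidWithZeroHom.ValueGroup₀.embedding γ.1) - 1, fun x hx => hγ ?_⟩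
    simp only [Set.mem_setOf_eq] at hx ⊢
    rw [Valued.v.restrict_lt_iff_lt_embedding]
    refine lt_of_le_of_lt hx ?_
    rw [← lt_log_iff_exp_lt (by simp)]
    simp
  · rintro ⟨n, hn⟩
    obtain ⟨x, hx⟩ := LaurentSeries.valuation_surjective F (exp n)
    have : Valued.v.restrict x ≠ 0 := fun h ↦ (exp_ne_zero (a := n)) <|
      hx ▸ MonoidWithZeroHom.ValueGroup₀.restrict₀_eq_zero_iff.1 h
    refine ⟨Units.mk0 (Valued.v.restrict x) this, fun y hy => hn ?_⟩
    simp only [Set.mem_setOf_eq, Units.val_mk0] at hy ⊢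
    rw [Valued.v.restrict_lt_iff] at hy
    exact (hx ▸ hy).le

variable {F}

theorem summable_of_v (t : ℕ → LaurentSeries F)
    (h : ∀ n : ℤ, ∃ I : ℕ, ∀ i, I ≤ i → Valued.v (t i) ≤ exp n) : Summable t := by
  rw [summable_iff_vanishing]
  intro e he
  obtain ⟨n, hn⟩ := (mem_nhds_zero_iff F e).1 he
  obtain ⟨I, hI⟩ := h n
  refine ⟨range I, fun s hs => hn ?_⟩
  refine Valuation.map_sum_le _ fun i hi => hI i ?_
  by_contra hc
  exact (Finset.disjoint_left.1 hs) hi (mem_range.2 (not_le.1 hc))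

theorem v_tsum_le (t : ℕ → LaurentSeries F) (n : ℤ) (h : ∀ i, Valued.v (t i) ≤ exp n) :
    Valued.v (∑' i, t i) ≤ exp n := by
  by_cases hs : Summable t
  · have h1 : Tendsto (fun I => ∑' i, t i - ∑ i ∈ range I, t i) atTop (𝓝 0) := by
      have := (tendsto_const_nhds (x := ∑' i, t i)).sub hs.hasSum.tendsto_sum_nat
      simpa using this
    have h2 := h1.eventually ((mem_nhds_zero_iff F {x | Valued.v x ≤ exp n}).2 ⟨n, subset_rfl⟩)
    obtain ⟨I, hI⟩ := h2.exists
    have h3 : Valued.v (∑ i ∈ range I, t i) ≤ exp n := Valuation.map_sum_le _ fun i _ => h i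
    have : ∑' i, t i = (∑' i, t i - ∑ i ∈ range I, t i) + ∑ i ∈ range I, t i := by ring
    rw [this]
    exact Valuation.map_add_le _ hI h3
  · rw [tsum_eq_zero_of_not_summable hs]; simp

theorem exists_v_eq {s : LaurentSeries F} (hs : s ≠ 0) : ∃ d : ℤ, Valued.v s = exp d :=
  ⟨log (Valued.v s), (exp_log ((Valuation.ne_zero_iff _).2 hs)).symm⟩

theorem exists_v_le (s : LaurentSeries F) : ∃ d : ℕ, Valued.v s ≤ exp (d : ℤ) := by
  by_cases hs : s = 0
  · exact ⟨0, by simp [hs]⟩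
  · obtain ⟨d, hd⟩ := exists_v_eq hs
    exact ⟨d.toNat, by rw [hd, exp_le_exp]; omega⟩

theorem v_pow_eq {s : LaurentSeries F} {d : ℤ} (h : Valued.v s = exp d) (n : ℕ) :
    Valued.v (s ^ n) = exp (n * d) := by
  rw [map_pow, h, ← exp_nsmul, nsmul_eq_mul]

theorem v_pow_le {s : LaurentSeries F} {d : ℤ} (h : Valued.v s ≤ exp d) (n : ℕ) :
    Valued.v (s ^ n) ≤ exp (n * d) := by
  rw [map_pow, ← nsmul_eq_mul, exp_nsmul]
  exact pow_le_pow_left₀ zero_le h n

theorem v_mul_le {s t : LaurentSeries F} {a b : ℤ} (h : Valued.v s ≤ exp a)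
    (h' : Valued.v t ≤ exp b) : Valued.v (s * t) ≤ exp (a + b) := by
  rw [map_mul, exp_add]
  exact mul_le_mul' h h'

theorem v_add_eq_left {s t : LaurentSeries F} {a b : ℤ} (h : Valued.v s = exp a)
    (h' : Valued.v t ≤ exp b) (hab : b < a) : Valued.v (s + t) = exp a := by
  rw [Valuation.map_add_eq_of_lt_left _ (by rw [h]; exact lt_of_le_of_lt h' (exp_lt_exp.2 hab)), h]

variable (F)

theorem v_th : Valued.v (th F) = exp (1 : ℤ) := by
  have := LaurentSeries.valuation_single_zpow F (-1)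
  simpa [th] using this

theorem v_th_pow (n : ℕ) : Valued.v (th F ^ n) = exp (n : ℤ) := by
  simpa using v_pow_eq (v_th F) n

theorem v_th_sub {a b : ℕ} (h : b < a) : Valued.v (th F ^ a - th F ^ b) = exp (a : ℤ) := by
  rw [sub_eq_add_neg]
  refine v_add_eq_left (b := b) (v_th_pow F a) ?_ (by exact_mod_cast h)
  rw [Valuation.map_neg, v_th_pow]

theorem th_mem_A : th F ∈ A F := by
  intro n hn
  rw [th, HahnSeries.coeff_single_of_ne (by omega)]

theorem one_le_v_of_mem_A {z : LaurentSeries F} (hz : z ∈ A F) (h0 : z ≠ 0) :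
    exp (0 : ℤ) ≤ Valued.v z := by
  by_contra hc
  obtain ⟨d, hd⟩ := exists_v_eq h0
  rw [hd, exp_le_exp, not_le] at hc
  have h1 : Valued.v z ≤ exp (-(1 : ℤ)) := by rw [hd, exp_le_exp]; omega
  rw [LaurentSeries.valuation_le_iff_coeff_lt_eq_zero] at h1
  apply h0
  ext n
  rcases lt_or_ge 0 n with h | h
  · simpa using hz n h
  · simpa using h1 n (by omega)

variable [Fintype F]

theorem v_D (i : ℕ) :
    Valued.v (D F i) = exp ((i : ℤ) * (Fintype.card F : ℤ) ^ i) := by
  rw [D, map_prod]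
  rw [Finset.prod_congr rfl (g := fun _ => exp (((Fintype.card F ^ i : ℕ) : ℤ)))]
  · rw [prod_const, card_range, ← exp_nsmul, nsmul_eq_mul]; push_cast; rfl
  · intro u hu
    exact v_th_sub F (Nat.pow_lt_pow_right Fintype.one_lt_card (mem_range.1 hu))

theorem D_ne_zero (i : ℕ) : D F i ≠ 0 := by
  rw [← Valuation.ne_zero_iff Valued.v, v_D]; exact exp_ne_zero

variable {F}

theorem v_term_eq {s : LaurentSeries F} {d : ℤ} (h : Valued.v s = exp d) (i : ℕ) :
    Valued.v (s ^ (Fintype.card F ^ i) / D F i) = exp ((d - i) * (Fintype.card F : ℤ) ^ i) := by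
  rw [map_div₀, v_pow_eq h, v_D, ← exp_sub]
  congr 1; push_cast; ring

theorem v_term_le {s : LaurentSeries F} {d : ℤ} (h : Valued.v s ≤ exp d) (i : ℕ) :
    Valued.v (s ^ (Fintype.card F ^ i) / D F i) ≤ exp ((d - i) * (Fintype.card F : ℤ) ^ i) := by
  by_cases hs : s = 0
  · rw [hs, zero_pow (pow_pos Fintype.card_pos i).ne', zero_div, map_zero]; exact zero_le
  · obtain ⟨e, he⟩ := exists_v_eq hs
    rw [he, exp_le_exp] at h
    rw [v_term_eq he, exp_le_exp]
    have : (0 : ℤ) ≤ (Fintype.card F : ℤ) ^ i := by positivity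
    nlinarith

theorem one_le_qpow (i : ℕ) : (1 : ℤ) ≤ (Fintype.card F : ℤ) ^ i :=
  one_le_pow₀ (by exact_mod_cast Fintype.card_pos)

theorem summable_ex (z : LaurentSeries F) :
    Summable fun i : ℕ => z ^ (Fintype.card F ^ i) / D F i := by
  obtain ⟨d, hd⟩ := exists_v_le z
  refine summable_of_v _ fun n => ⟨d + n.natAbs, fun i hi => (v_term_le hd i).trans ?_⟩
  rw [exp_le_exp]
  have h1 := one_le_qpow (F := F) i
  have h2 : (d : ℤ) - i ≤ -|n| := by
    have : ((d + n.natAbs : ℕ) : ℤ) ≤ i := by exact_mod_cast hi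
    push_cast at this; linarith
  have h3 := neg_abs_le n
  have h4 := abs_nonneg n
  nlinarith

theorem add_pow_q (x y : LaurentSeries F) (i : ℕ) :
    (x + y) ^ (Fintype.card F ^ i) = x ^ (Fintype.card F ^ i) + y ^ (Fintype.card F ^ i) := by
  induction i with
  | zero => simp
  | succ i ih =>
    have h := map_add (FiniteField.frobeniusAlgHom F (LaurentSeries F))
      (x ^ (Fintype.card F ^ i)) (y ^ (Fintype.card F ^ i))
    simp only [FiniteField.coe_frobeniusAlgHom] at h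
    rw [pow_succ, pow_mul, ih, h, ← pow_mul, ← pow_mul]

theorem ex_add (x y : LaurentSeries F) : ex F (x + y) = ex F x + ex F y := by
  rw [ex, ex, ex, ← (summable_ex x).tsum_add (summable_ex y)]
  exact tsum_congr fun i => by rw [add_pow_q, add_div]

/-- Splitting off the first `I` terms. -/
theorem ex_eq_sum_add (z : LaurentSeries F) (I : ℕ) :
    ex F z = ∑ i ∈ range I, z ^ (Fintype.card F ^ i) / D F i +
      ∑' i, z ^ (Fintype.card F ^ (i + I)) / D F (i + I) :=
  ((summable_ex z).sum_add_tsum_nat_add I).symm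

theorem v_tail_le {z : LaurentSeries F} {d : ℤ} (h : Valued.v z ≤ exp d) (I : ℕ) (hI : d ≤ I) :
    Valued.v (∑' i, z ^ (Fintype.card F ^ (i + I)) / D F (i + I)) ≤
      exp ((d - I) * (Fintype.card F : ℤ) ^ I) := by
  refine v_tsum_le _ _ fun i => (v_term_le h (i + I)).trans ?_
  rw [exp_le_exp]
  have h1 := one_le_qpow (F := F) I
  have h2 : (Fintype.card F : ℤ) ^ I ≤ (Fintype.card F : ℤ) ^ (i + I) :=
    pow_le_pow_right₀ (by exact_mod_cast Fintype.card_pos) (by omega)
  have h3 : (0 : ℤ) ≤ i := Int.natCast_nonneg i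
  push_cast
  nlinarith

end Pool.Agent.CarlAn
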