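import Pool.Agent.Lib.MP_0370b2_nt.CS.Defs

/-! Laws of the Cartier components and degree bookkeeping. -/

namespace Pool.Agent.Carl

open Finset WithZero

set_option linter.unusedSectionVars false

variable {F : Type} [Field F] [Fintype F]

theorem v_le_iff {z : LaurentSeries F} {d : ℤ} :
    Valued.v z ≤ exp d ↔ ∀ n : ℤ, n < -d → z.coeff n = 0 := by
  rw [← LaurentSeries.valuation_le_iff_coeff_lt_eq_zero F, neg_neg]

theorem exists_v_eq {z : LaurentSeries F} (h : z ≠ 0) : ∃ d : ℤ, Valued.v z = exp d :=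
  ⟨log (Valued.v z), (exp_log ((Valuation.ne_zero_iff _).2 h)).symm⟩

theorem exists_v_le (z : LaurentSeries F) : ∃ N : ℕ, Valued.v z ≤ exp (N : ℤ) := by
  by_cases h : z = 0
  · exact ⟨0, by simp [h]⟩
  · obtain ⟨d, hd⟩ := exists_v_eq h
    exact ⟨d.toNat, by rw [hd, exp_le_exp]; omega⟩

theorem th_pow (n : ℕ) : th F ^ n = HahnSeries.single (-(n : ℤ)) (1 : F) := by
  rw [th, HahnSeries.single_pow]; simp

theorem th_mem : th F ∈ A F := by
  intro n hn
  rw [th, HahnSeries.coeff_single_of_ne (by omega)]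

theorem th_ne : th F ≠ 0 := by
  rw [th]; exact HahnSeries.single_ne_zero one_ne_zero

theorem v_th_pow (n : ℕ) : Valued.v (th F ^ n) = exp (n : ℤ) := by
  rw [th_pow, LaurentSeries.valuation_single_zpow, neg_neg]

theorem v_sub_pow {a b : ℕ} (h : b < a) : Valued.v (th F ^ a - th F ^ b) = exp (a : ℤ) := by
  rw [Valuation.map_sub_eq_of_lt_left, v_th_pow]
  rw [v_th_pow, v_th_pow, exp_lt_exp]
  exact_mod_cast h

theorem q_pos (E : ℕ) : 0 < Fintype.card F ^ E := pow_pos Fintype.card_pos E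

theorem q_lt {u i : ℕ} (h : u < i) : Fintype.card F ^ u < Fintype.card F ^ i :=
  Nat.pow_lt_pow_right Fintype.one_lt_card h

theorem v_D (i : ℕ) : Valued.v (D F i) = exp ((i * Fintype.card F ^ i : ℕ) : ℤ) := by
  rw [D, map_prod, Finset.prod_congr rfl fun u hu => v_sub_pow (q_lt (mem_range.1 hu)),
    Finset.prod_const, card_range, ← exp_nsmul]
  simp

theorem D_ne (i : ℕ) : D F i ≠ 0 := by
  intro h
  have := v_D (F := F) i
  rw [h, map_zero] at this
  exact exp_ne_zero this.symm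

theorem D_mem (i : ℕ) : D F i ∈ A F :=
  prod_mem fun _ _ => sub_mem (pow_mem th_mem _) (pow_mem th_mem _)

theorem ell_mem (E : ℕ) : ell F E ∈ A F :=
  prod_mem fun _ _ => sub_mem th_mem (pow_mem th_mem _)

theorem v_prod_le {ι : Type} (s : Finset ι) (f : ι → LaurentSeries F) (d : ℤ)
    (h : ∀ i ∈ s, Valued.v (f i) ≤ exp d) : Valued.v (∏ i ∈ s, f i) ≤ exp ((s.card : ℤ) * d) := by
  rw [map_prod]
  refine (Finset.prod_le_pow_card s _ _ h).trans ?_
  rw [← exp_nsmul]; simp

theorem v_ell (E : ℕ) : Valued.v (ell F E) ≤ exp ((E * Fintype.card F ^ E : ℕ) : ℤ) := by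
  refine (v_prod_le _ _ ((Fintype.card F ^ E : ℕ) : ℤ) fun u hu => ?_).trans ?_
  · have h1 : u < E := mem_range.1 (mem_of_mem_erase hu)
    have h2 := v_th_pow (F := F) 1
    rw [pow_one] at h2
    refine Valuation.map_sub_le _ ?_ ?_
    · rw [h2, exp_le_exp]; exact_mod_cast q_pos E
    · rw [v_th_pow, exp_le_exp]; exact_mod_cast (q_lt h1).le
  · rw [exp_le_exp]
    have : ((range E).erase 0).card ≤ E := card_erase_le.trans (card_range E).le
    exact_mod_cast Nat.mul_le_mul_right _ this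

theorem one_le_v {z : LaurentSeries F} (hz : z ∈ A F) (h0 : z ≠ 0) : 1 ≤ Valued.v z := by
  obtain ⟨d, hd⟩ := exists_v_eq h0
  rw [hd, ← exp_zero, exp_le_exp]
  by_contra h
  apply h0
  ext n
  rcases lt_or_ge 0 n with hn | hn
  · exact hz n hn
  · exact v_le_iff.1 hd.le n (by omega)

theorem A_eq_sum {z : LaurentSeries F} (hz : z ∈ A F) {N : ℕ} (h : Valued.v z ≤ exp (N : ℤ)) :
    z = ∑ t ∈ range (N + 1), HahnSeries.single (-(t : ℤ)) (z.coeff (-(t : ℤ))) := by
  ext n
  rw [HahnSeries.coeff_sum]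
  by_cases hn : -(N : ℤ) ≤ n ∧ n ≤ 0
  · rw [Finset.sum_eq_single (-n).toNat]
    · have : -(((-n).toNat : ℕ) : ℤ) = n := by omega
      rw [this, HahnSeries.coeff_single_same]
    · intro t _ ht
      exact HahnSeries.coeff_single_of_ne (by omega)
    · intro ht
      exact absurd (mem_range.2 (by omega)) ht
  · rw [Finset.sum_eq_zero fun t ht => HahnSeries.coeff_single_of_ne
      (by have := mem_range.1 ht; omega)]
    rcases lt_or_ge 0 n with h1 | h1
    · exact hz n h1
    · exact v_le_iff.1 h n (by omega)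

theorem single_eq (t : ℕ) (c : F) :
    HahnSeries.single (-(t : ℤ)) c = algebraMap F (LaurentSeries F) c * th F ^ t := by
  rw [th_pow, LaurentSeries.algebraMap_apply, HahnSeries.C_apply, HahnSeries.single_mul_single]
  simp

theorem A_sub_kk {z : LaurentSeries F} (hz : z ∈ A F) : z ∈ kk F := by
  obtain ⟨N, hN⟩ := exists_v_le z
  rw [A_eq_sum hz hN]
  refine sum_mem fun t _ => ?_
  rw [single_eq]
  exact mul_mem (IntermediateField.algebraMap_mem _ _)
    (pow_mem (IntermediateField.mem_adjoin_simple_self F (th F)) t)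

theorem kk_frac {x : LaurentSeries F} (hx : x ∈ kk F) :
    ∃ b ∈ A F, b ≠ 0 ∧ b * x ∈ A F := by
  obtain ⟨r, s, rfl⟩ := (IntermediateField.mem_adjoin_simple_iff F x).1 hx
  have hm : ∀ p : Polynomial F, Polynomial.aeval (th F) p ∈ A F := fun p =>
    Algebra.adjoin_le (S := A F) (s := {th F}) (by simpa using th_mem)
      (Polynomial.aeval_mem_adjoin_singleton F _)
  by_cases h : Polynomial.aeval (th F) s = 0
  · exact ⟨1, one_mem _, one_ne_zero, by rw [h, div_zero, mul_zero]; exact zero_mem _⟩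
  · exact ⟨_, hm s, h, by rw [mul_div_cancel₀ _ h]; exact hm r⟩

/-- Frobenius `z ↦ z^(q^E)` as a ring homomorphism. -/
theorem exists_frob (E : ℕ) : ∃ φ : LaurentSeries F →+* LaurentSeries F,
    ∀ z, φ z = z ^ (Fintype.card F ^ E) := by
  obtain ⟨p, hp, n, hpp, hn⟩ := FiniteField.card' F
  have := Fact.mk hpp
  have : CharP (LaurentSeries F) p :=
    charP_of_injective_algebraMap (algebraMap F (LaurentSeries F)).injective p
  refine ⟨iterateFrobenius _ p (n * E), fun z => ?_⟩
  rw [iterateFrobenius_def, hn, ← pow_mul]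

theorem frob_add (E : ℕ) (a b : LaurentSeries F) :
    (a + b) ^ (Fintype.card F ^ E) = a ^ (Fintype.card F ^ E) + b ^ (Fintype.card F ^ E) := by
  obtain ⟨φ, h⟩ := exists_frob (F := F) E
  rw [← h, ← h, ← h, map_add]

theorem frob_sub (E : ℕ) (a b : LaurentSeries F) :
    (a - b) ^ (Fintype.card F ^ E) = a ^ (Fintype.card F ^ E) - b ^ (Fintype.card F ^ E) := by
  obtain ⟨φ, h⟩ := exists_frob (F := F) E
  rw [← h, ← h, ← h, map_sub]

theorem frob_sum {ι : Type} (E : ℕ) (s : Finset ι) (f : ι → LaurentSeries F) :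
    (∑ i ∈ s, f i) ^ (Fintype.card F ^ E) = ∑ i ∈ s, f i ^ (Fintype.card F ^ E) := by
  obtain ⟨φ, h⟩ := exists_frob (F := F) E
  rw [← h, map_sum]
  exact Finset.sum_congr rfl fun i _ => h _

theorem frob_coeff (E : ℕ) (w : LaurentSeries F) (n : ℤ) :
    (w ^ (Fintype.card F ^ E)).coeff n =
      if ((Fintype.card F ^ E : ℕ) : ℤ) ∣ n then w.coeff (n / (Fintype.card F ^ E : ℕ)) else 0 := by
  set Q : ℕ := Fintype.card F ^ E with hQ
  have hQ1 : (1 : ℤ) ≤ Q := by exact_mod_cast q_pos E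
  set B : ℤ := |n| + 1 with hB
  set S := Finset.Ico w.order B with hS
  set t := w - ∑ k ∈ S, HahnSeries.single k (w.coeff k) with ht
  have hc : ∀ k < B, t.coeff k = 0 := by
    intro k hk
    rw [ht, HahnSeries.coeff_sub, HahnSeries.coeff_sum, sub_eq_zero]
    by_cases hkS : k ∈ S
    · rw [Finset.sum_eq_single k (fun j _ hj => HahnSeries.coeff_single_of_ne hj.symm)
        (fun h => absurd hkS h), HahnSeries.coeff_single_same]
    · rw [Finset.sum_eq_zero fun j hj => HahnSeries.coeff_single_of_ne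
        (fun h : k = j => hkS (h ▸ hj))]
      apply HahnSeries.coeff_eq_zero_of_lt_order
      by_contra h
      exact hkS (Finset.mem_Ico.2 ⟨not_lt.1 h, hk⟩)
  have hv : Valued.v t ≤ exp (-B) := v_le_iff.2 fun k hk => hc k (by omega)
  have hn : n < B := by have := le_abs_self n; omega
  have hB0 : 0 ≤ B := by have := abs_nonneg n; omega
  have hv' : Valued.v (t ^ Q) ≤ exp (-B) := by
    rw [map_pow]
    refine (pow_le_pow_left₀ zero_le hv Q).trans ?_
    rw [← exp_nsmul, exp_le_exp, nsmul_eq_mul]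
    nlinarith
  have hw : w = ∑ k ∈ S, HahnSeries.single k (w.coeff k) + t := by rw [ht]; ring
  have h1 : w ^ Q = ∑ k ∈ S, HahnSeries.single ((Q : ℤ) * k) (w.coeff k) + t ^ Q := by
    conv_lhs => rw [hw]
    rw [frob_add, frob_sum]
    congr 1
    refine Finset.sum_congr rfl fun k _ => ?_
    rw [HahnSeries.single_pow, FiniteField.pow_card_pow, nsmul_eq_mul]
  rw [h1, HahnSeries.coeff_add, v_le_iff.1 hv' n (by omega), add_zero, HahnSeries.coeff_sum]
  split_ifs with hd
  · obtain ⟨k, rfl⟩ := hd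
    rw [Int.mul_ediv_cancel_left _ (by omega)]
    have hinj : ∀ j, j ≠ k → (Q : ℤ) * k ≠ Q * j := fun j hj h =>
      hj (mul_left_cancel₀ (by omega) h).symm
    by_cases hkS : k ∈ S
    · rw [Finset.sum_eq_single k (fun j _ hj => HahnSeries.coeff_single_of_ne (hinj j hj))
        (fun h => absurd hkS h), HahnSeries.coeff_single_same]
    · rw [Finset.sum_eq_zero fun j hj => HahnSeries.coeff_single_of_ne
        (hinj j fun h => hkS (h ▸ hj))]
      symm
      apply HahnSeries.coeff_eq_zero_of_lt_order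
      by_contra h
      refine hkS (Finset.mem_Ico.2 ⟨not_lt.1 h, ?_⟩)
      rcases le_or_gt k 0 with h0 | h0
      · have := abs_nonneg ((Q : ℤ) * k); omega
      · nlinarith
  · exact Finset.sum_eq_zero fun j _ => HahnSeries.coeff_single_of_ne
      fun h => hd ⟨j, h⟩

theorem U_coeff (E r : ℕ) (z : LaurentSeries F) (k : ℤ) :
    (U F E r z).coeff k = z.coeff (((Fintype.card F ^ E : ℕ) : ℤ) * k - r) := rfl

theorem th_mul_coeff (r : ℕ) (z : LaurentSeries F) (n : ℤ) :
    (th F ^ r * z).coeff n = z.coeff (n + r) := by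
  have := HahnSeries.coeff_single_mul_add (r := (1 : F)) (x := z) (a := n + r) (b := -(r : ℤ))
  rw [one_mul, add_neg_cancel_right] at this
  rw [th_pow, this]

theorem dvd_small {Q r r' : ℕ} (hr : r < Q) (hr' : r' < Q) {k : ℤ}
    (h : (Q : ℤ) ∣ (Q : ℤ) * k - r + r') : r = r' := by
  have h1 : (Q : ℤ) ∣ (r' : ℤ) - r := by
    have := (dvd_sub h (dvd_mul_right (Q : ℤ) k))
    rwa [show (Q : ℤ) * k - r + r' - Q * k = (r' : ℤ) - r by ring] at this
  have := Int.eq_zero_of_abs_lt_dvd h1 (by rw [abs_lt]; constructor <;> omega)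
  omega

theorem U_key {E r r' : ℕ} (hr : r < Fintype.card F ^ E) (hr' : r' < Fintype.card F ^ E)
    (w : LaurentSeries F) :
    U F E r (th F ^ r' * w ^ (Fintype.card F ^ E)) = if r = r' then w else 0 := by
  have hQ1 : (1 : ℤ) ≤ (Fintype.card F ^ E : ℕ) := by exact_mod_cast q_pos E
  ext k
  rw [U_coeff, th_mul_coeff, frob_coeff]
  by_cases h : r = r'
  · subst h
    rw [if_pos rfl, sub_add_cancel, if_pos (dvd_mul_right _ _),
      Int.mul_ediv_cancel_left _ (by omega)]
  · rw [if_neg h, if_neg fun h' => h (dvd_small hr hr' h')]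
    simp

theorem U_decomp (E : ℕ) (z : LaurentSeries F) :
    z = ∑ r ∈ range (Fintype.card F ^ E), th F ^ r * (U F E r z) ^ (Fintype.card F ^ E) := by
  have hQ1 : (1 : ℤ) ≤ (Fintype.card F ^ E : ℕ) := by exact_mod_cast q_pos E
  ext n
  rw [HahnSeries.coeff_sum]
  set Q : ℕ := Fintype.card F ^ E with hQ
  have h0 := Int.emod_nonneg (-n) (b := Q) (by omega)
  have h1 := Int.emod_lt_of_pos (-n) (b := Q) (by omega)
  have h2 := Int.emod_add_mul_ediv (-n) Q
  obtain ⟨r, hr⟩ := Int.eq_ofNat_of_zero_le h0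
  have h3 : n = (Q : ℤ) * (-(-n / Q)) - r := by rw [← hr]; linarith
  rw [Finset.sum_eq_single r]
  · rw [th_mul_coeff, frob_coeff, ← hQ]
    have h4 : n + r = (Q : ℤ) * (-(-n / Q)) := by linarith
    rw [h4, if_pos (dvd_mul_right _ _), Int.mul_ediv_cancel_left _ (by omega), U_coeff, ← hQ, ← h3]
  · intro r' hr' hne
    rw [th_mul_coeff, frob_coeff, ← hQ, if_neg]
    intro h
    rw [h3] at h
    exact hne (dvd_small (by omega) (mem_range.1 hr') h).symm
  · intro h
    exact absurd (mem_range.2 (by omega)) h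

theorem U_semi {E r : ℕ} (hr : r < Fintype.card F ^ E) (k z : LaurentSeries F) :
    U F E r (k ^ (Fintype.card F ^ E) * z) = k * U F E r z := by
  conv_lhs => rw [U_decomp E z]
  rw [Finset.mul_sum, map_sum, Finset.sum_eq_single r]
  · rw [mul_left_comm, ← mul_pow, U_key hr hr, if_pos rfl]
  · intro r' hr' hne
    rw [mul_left_comm, ← mul_pow, U_key hr (mem_range.1 hr'), if_neg hne.symm]
  · intro h
    exact absurd (mem_range.2 hr) h

theorem U_val {E r : ℕ} {z : LaurentSeries F} (d : ℤ)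
    (h : Valued.v z ≤ exp (((Fintype.card F ^ E : ℕ) : ℤ) * d)) :
    Valued.v (U F E r z) ≤ exp d := by
  have hQ1 : (1 : ℤ) ≤ (Fintype.card F ^ E : ℕ) := by exact_mod_cast q_pos E
  refine v_le_iff.2 fun k hk => ?_
  rw [U_coeff]
  refine v_le_iff.1 h _ ?_
  have : (0 : ℤ) ≤ r := Int.natCast_nonneg r
  nlinarith

theorem U_mem {E r : ℕ} (hr : r < Fintype.card F ^ E) {z : LaurentSeries F} (hz : z ∈ A F) :
    U F E r z ∈ A F := by
  intro k hk
  rw [U_coeff]
  refine hz _ ?_
  have : (r : ℤ) < (Fintype.card F ^ E : ℕ) := by exact_mod_cast hr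
  have : (0 : ℤ) ≤ r := Int.natCast_nonneg r
  nlinarith

variable {E m M : ℕ} {lam : ℕ → LaurentSeries F}

theorem Lam_add (a b : LaurentSeries F) :
    Lam F E m M lam (a + b) = Lam F E m M lam a + Lam F E m M lam b := by
  simp only [Lam, map_add, mul_add, Finset.sum_add_distrib]

theorem Lam_sum {ι : Type} (s : Finset ι) (f : ι → LaurentSeries F) :
    Lam F E m M lam (∑ i ∈ s, f i) = ∑ i ∈ s, Lam F E m M lam (f i) := by
  simp only [Lam, map_sum, Finset.mul_sum]
  exact Finset.sum_comm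

theorem Lam_semi (hm : m + M = Fintype.card F ^ E) (k z : LaurentSeries F) :
    Lam F E m M lam (k ^ (Fintype.card F ^ E) * z) = k * Lam F E m M lam z := by
  rw [Lam, Lam, Finset.mul_sum]
  refine Finset.sum_congr rfl fun r hr => ?_
  rw [U_semi (by have := mem_range.1 hr; omega), mul_left_comm]

theorem Lam_val {h d : ℤ} {z : LaurentSeries F} (hl : ∀ r, Valued.v (lam r) ≤ exp h)
    (hz : Valued.v z ≤ exp (((Fintype.card F ^ E : ℕ) : ℤ) * d)) :
    Valued.v (Lam F E m M lam z) ≤ exp (h + d) := by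
  refine Valuation.map_sum_le _ fun r _ => ?_
  rw [map_mul, exp_add]
  exact mul_le_mul' (hl r) (U_val d hz)

theorem Lam_mem (hm : m + M = Fintype.card F ^ E) (hl : ∀ r, lam r ∈ A F)
    {z : LaurentSeries F} (hz : z ∈ A F) : Lam F E m M lam z ∈ A F :=
  sum_mem fun r hr => mul_mem (hl r) (U_mem (by have := mem_range.1 hr; omega) hz)

end Pool.Agent.Carl
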