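import Mathlib

/-! The Carlitz exponential on `F((1/θ))`, Cartier components and the block statements. -/

namespace Pool.Agent.Carl

open Finset WithZero

variable (F : Type) [Field F] [Fintype F]

/-- `θ = 1 / X` in `F((X)) = F((1/θ))`. -/
noncomputable def th : LaurentSeries F := HahnSeries.single (-1) 1

/-- The Carlitz factorial `D_i = ∏_{u < i} (θ^(q^i) - θ^(q^u))`. -/
noncomputable def D (i : ℕ) : LaurentSeries F :=
  ∏ u ∈ range i, (th F ^ (Fintype.card F ^ i) - th F ^ (Fintype.card F ^ u))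

/-- The Carlitz exponential `e(z) = ∑ z^(q^i) / D_i`. -/
noncomputable def ex (z : LaurentSeries F) : LaurentSeries F :=
  ∑' i : ℕ, z ^ (Fintype.card F ^ i) / D F i

/-- The rational function field `F(θ)` inside `F((1/θ))`. -/
noncomputable def kk : IntermediateField F (LaurentSeries F) :=
  IntermediateField.adjoin F {th F}

/-- The polynomial ring `F[θ]`: series with no negative power of `θ`. -/
noncomputable def A : Subalgebra F (LaurentSeries F) where
  carrier := {z | ∀ n : ℤ, 0 < n → z.coeff n = 0}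
  mul_mem' := by
    intro a b ha hb n hn
    by_contra h
    obtain ⟨i, hi, j, hj, rfl⟩ :=
      HahnSeries.support_mul_subset ((HahnSeries.mem_support _ _).2 h)
    have h1 : ¬ 0 < i := fun h' => hi (ha i h')
    have h2 : ¬ 0 < j := fun h' => hj (hb j h')
    simp only at hn
    omega
  add_mem' := by
    intro a b ha hb n hn
    simp [ha n hn, hb n hn]
  algebraMap_mem' := by
    intro c n hn
    rw [LaurentSeries.algebraMap_apply, HahnSeries.C_apply, HahnSeries.coeff_single_of_ne hn.ne']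

/-- The Cartier component: `z = ∑_{r < Q} θ^r (U E r z)^Q` with `Q = q^E`. -/
noncomputable def U (E r : ℕ) : LaurentSeries F →ₗ[F] LaurentSeries F where
  toFun z := HahnSeries.ofSuppBddBelow
    (fun k : ℤ => z.coeff (((Fintype.card F ^ E : ℕ) : ℤ) * k - r)) (by
      refine ⟨min 0 z.order, fun k hk => ?_⟩
      have h1 : z.order ≤ ((Fintype.card F ^ E : ℕ) : ℤ) * k - r :=
        HahnSeries.order_le_of_coeff_ne_zero hk
      have h2 : (1 : ℤ) ≤ ((Fintype.card F ^ E : ℕ) : ℤ) := by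
        exact_mod_cast Nat.one_le_pow _ _ Fintype.card_pos
      rcases le_total 0 k with h | h
      · exact (min_le_left _ _).trans h
      · refine (min_le_right _ _).trans ?_
        have : (0 : ℤ) ≤ r := Int.natCast_nonneg r
        nlinarith)
  map_add' a b := by ext k; simp
  map_smul' c a := by ext k; simp

/-- `Λ z = ∑_{r < M} λ_r U_{m + r} z`. -/
noncomputable def Lam (E m M : ℕ) (lam : ℕ → LaurentSeries F) (z : LaurentSeries F) :
    LaurentSeries F :=
  ∑ r ∈ range M, lam r * U F E (m + r) z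

/-- `ℓ = ∏_{0 < v < E} (θ - θ^(q^v))`. -/
noncomputable def ell (E : ℕ) : LaurentSeries F :=
  ∏ v ∈ (range E).erase 0, (th F - th F ^ (Fintype.card F ^ v))

/-- `Λ` kills `(ℓ / D_u) K^(q^u)` for `1 ≤ u < E`. -/
def Kill (E m M : ℕ) (lam : ℕ → LaurentSeries F) : Prop :=
  ∀ u, 1 ≤ u → u < E → ∀ z : LaurentSeries F,
    Lam F E m M lam (ell F E / D F u * z ^ (Fintype.card F ^ u)) = 0

def SiegStmt : Prop :=
  3 ≤ Fintype.card F → ∀ E m M : ℕ, 1 ≤ E → m + M = Fintype.card F ^ E →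
    5 * m ≤ 2 * Fintype.card F ^ E →
    ∃ lam : ℕ → LaurentSeries F,
      (∀ r, lam r ∈ A F ∧ Valued.v (lam r) ≤ exp ((30 * E ^ 2 : ℕ) : ℤ)) ∧
      (∃ r < M, lam r ≠ 0) ∧ Kill F E m M lam

def PFStmt : Prop :=
  ∀ (E m M : ℕ) (lam : ℕ → LaurentSeries F), 1 ≤ E → m + M = Fintype.card F ^ E →
    Kill F E m M lam → ∀ (s : LaurentSeries F) (j : ℕ),
      Lam F E m M lam (ell F E * (s ^ (Fintype.card F ^ (j + E)) / D F (j + E))) =
        s ^ (Fintype.card F ^ j) / D F j *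
          (∑ r ∈ range M, lam r * (th F ^ (Fintype.card F ^ j)) ^ (M - 1 - r)) /
          (th F ^ (Fintype.card F ^ (j + E)) - th F)

def OreStmt : Prop :=
  ∀ f : LaurentSeries F, IsAlgebraic (kk F) f →
    ∃ (g N : ℕ) (φ a0 : LaurentSeries F), IsAlgebraic (kk F) φ ∧ a0 ∈ A F ∧
      Valued.v a0 ≤ exp (N : ℤ) ∧ f = a0 * φ ∧
      ∀ E : ℕ, ∃ c : ℕ → LaurentSeries F,
        (∀ i, c i ∈ A F ∧ Valued.v (c i) ≤ exp ((N * Fintype.card F ^ E : ℕ) : ℤ)) ∧
        φ = ∑ i ∈ range g, c i * (φ ^ (Fintype.card F ^ i)) ^ (Fintype.card F ^ E)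

def LiouStmt : Prop :=
  ∀ φ : LaurentSeries F, IsAlgebraic (kk F) φ → ∀ g : ℕ, ∃ C : ℕ,
    ∀ (H : ℕ) (d : ℕ → LaurentSeries F), (∀ i, d i ∈ A F ∧ Valued.v (d i) ≤ exp (H : ℤ)) →
      ∑ i ∈ range g, d i * φ ^ (Fintype.card F ^ i) ≠ 0 →
      exp (-((C * (H + 1) : ℕ) : ℤ)) ≤
        Valued.v (∑ i ∈ range g, d i * φ ^ (Fintype.card F ^ i))

def MainStmt : Prop :=
  3 ≤ Fintype.card F → ∀ s : LaurentSeries F, s ≠ 0 → Transcendental (kk F) (ex F s - s)

def IterStmt : Prop :=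
  3 ≤ Fintype.card F → ∀ a : LaurentSeries F, a ≠ 0 → IsAlgebraic (kk F) a →
    ∀ N : ℕ, 1 ≤ N → Transcendental (kk F) ((ex F)^[N] a)

end Pool.Agent.Carl
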