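import Pool.Agent.Lib.MP_0370b2_nt.CS.Main

/-! All iterates: `e^N(s) - s` is transcendental. -/

namespace Pool.Agent.CarlAn

open Finset WithZero Filter Topology Pool.Agent.Carl

variable {F : Type} [Field F] [Fintype F]

theorem succ_lt_pow {q : ℤ} (hq : 3 ≤ q) {k : ℕ} (hk : 1 ≤ k) : (k : ℤ) + 1 < q ^ k := by
  induction k, hk using Nat.le_induction with
  | base => simp; linarith
  | succ k hk ih =>
    rw [pow_succ]; push_cast
    have : (0 : ℤ) ≤ k := Int.natCast_nonneg k
    nlinarith

theorem v_ex_big (hq : 3 ≤ Fintype.card F) {z : LaurentSeries F} {d : ℤ}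
    (hd : Valued.v z = exp d) (h2 : 2 ≤ d) : ∃ e : ℤ, d < e ∧ Valued.v (ex F z) = exp e := by
  obtain ⟨n, rfl⟩ : ∃ n : ℕ, d = n + 1 := ⟨(d - 1).toNat, by omega⟩
  have hn : 1 ≤ n := by omega
  have hq' : (3 : ℤ) ≤ Fintype.card F := by exact_mod_cast hq
  have h0 : Valued.v (z ^ (Fintype.card F ^ n) / D F n) = exp ((Fintype.card F : ℤ) ^ n) := by
    rw [v_term_eq hd]; congr 1; ring
  refine ⟨(Fintype.card F : ℤ) ^ n, succ_lt_pow hq' hn, ?_⟩
  rw [ex_eq_sum_add z (n + 1), v_sum_eq (j0 := n) (by omega)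
    (fun i => z ^ (Fintype.card F ^ i) / D F i) _ ((Fintype.card F : ℤ) ^ n) h0.ge, h0]
  · intro j hj hjn
    obtain ⟨k, rfl⟩ : ∃ k, n = j + k := ⟨n - j, by omega⟩
    rw [v_term_eq hd, exp_le_exp, pow_add]
    have h1 := succ_lt_pow hq' (k := k) (by omega)
    have h3 := one_le_qpow (F := F) j
    push_cast
    nlinarith
  · refine (v_tail_le hd.le (n + 1) (by push_cast; rfl)).trans ?_
    rw [exp_le_exp]
    have h3 := one_le_qpow (F := F) n
    push_cast
    nlinarith

theorem v_eta_le {z : LaurentSeries F} {d : ℤ} (hd : Valued.v z ≤ exp d) (h1 : d ≤ 1) :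
    Valued.v (ex F z - z) ≤ exp (d - 1) := by
  have h0 : z ^ Fintype.card F ^ 0 / D F 0 = z := by simp [D]
  rw [ex_eq_sum_add z 1, Finset.sum_range_one, h0, add_sub_cancel_left]
  refine (v_tail_le hd 1 (by exact_mod_cast h1)).trans ?_
  rw [exp_le_exp]
  have h3 := one_le_qpow (F := F) 1
  push_cast at h3 ⊢
  nlinarith

variable (F) in
/-- `η = e - 1` as an additive endomorphism. -/
noncomputable def eta : AddMonoid.End (LaurentSeries F) :=
  AddMonoidHom.mk' (fun z => ex F z - z) fun x y => by rw [ex_add]; ring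

theorem eta_apply (z : LaurentSeries F) : eta F z = ex F z - z := rfl

theorem iterate_eq (N : ℕ) (s : LaurentSeries F) :
    (ex F)^[N] s = ∑ t ∈ range (N + 1), (N.choose t : LaurentSeries F) * (eta F ^ t) s := by
  have h1 : (ex F)^[N] s = ((eta F + 1) ^ N) s := by
    rw [AddMonoid.End.coe_pow]
    congr 2
    funext z
    change ex F z = (ex F z - z) + z
    ring
  rw [h1, (Commute.one_right (eta F)).add_pow]
  refine (AddMonoidHom.finset_sum_apply _ _ _).trans ?_
  refine Finset.sum_congr rfl fun t _ => ?_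
  change (eta F ^ t * 1 ^ (N - t) * (N.choose t : AddMonoid.End (LaurentSeries F))) s = _
  rw [one_pow, mul_one, AddMonoid.End.coe_mul, Function.comp_apply,
    AddMonoid.End.natCast_apply, map_nsmul, nsmul_eq_mul]

theorem v_natCast_le (n : ℕ) : Valued.v (n : LaurentSeries F) ≤ 1 := by
  induction n with
  | zero => simp
  | succ n ih => push_cast; exact Valuation.map_add_le _ ih (by simp)

theorem v_eta_pow_le {z : LaurentSeries F} {d : ℤ} (hd : Valued.v z ≤ exp d) (h1 : d ≤ 1)
    (t : ℕ) : Valued.v ((eta F ^ t) z) ≤ exp (d - t) := by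
  induction t with
  | zero => simpa using hd
  | succ t ih =>
    rw [pow_succ', AddMonoid.End.coe_mul, Function.comp_apply, eta_apply]
    refine (v_eta_le ih (by omega)).trans (le_of_eq ?_)
    congr 1; push_cast; ring

theorem iterate_ne (hq : 3 ≤ Fintype.card F) (hinj : ∀ z, ex F z - z = 0 → z = 0)
    {s : LaurentSeries F} (hs : s ≠ 0) {N : ℕ} (hN : 1 ≤ N) : (ex F)^[N] s ≠ s := by
  classical
  obtain ⟨d, hd⟩ := exists_v_eq hs
  rcases le_or_gt 2 d with h2 | h2
  · have key : ∀ n : ℕ, ∃ e : ℤ, d + n ≤ e ∧ Valued.v ((ex F)^[n] s) = exp e := by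
      intro n
      induction n with
      | zero => exact ⟨d, by simp, hd⟩
      | succ n ih =>
        obtain ⟨e, he, hv⟩ := ih
        obtain ⟨e', he', hv'⟩ := v_ex_big hq hv (by omega)
        exact ⟨e', by push_cast; omega, by rw [Function.iterate_succ_apply', hv']⟩
    obtain ⟨e, he, hv⟩ := key N
    intro h
    rw [h, hd, exp_inj] at hv
    omega
  · have hne : ∀ t : ℕ, (eta F ^ t) s ≠ 0 := by
      intro t
      induction t with
      | zero => simpa using hs
      | succ t ih =>
        rw [pow_succ', AddMonoid.End.coe_mul, Function.comp_apply, eta_apply]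
        exact fun h => ih (hinj _ h)
    have hex : ∃ t : ℕ, (N.choose (t + 1) : LaurentSeries F) ≠ 0 :=
      ⟨N - 1, by rw [Nat.sub_add_cancel hN]; simp⟩
    set t0 := Nat.find hex with ht0
    have hc : (N.choose (t0 + 1) : LaurentSeries F) ≠ 0 := Nat.find_spec hex
    have ht0N : t0 < N := by
      by_contra h
      exact hc (by rw [Nat.choose_eq_zero_of_lt (by omega)]; simp)
    obtain ⟨b, hb⟩ := exists_v_eq (hne (t0 + 1))
    have hb1 : b ≤ 1 := by
      have := v_eta_pow_le hd.le (by omega) (t0 + 1)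
      rw [hb, exp_le_exp] at this
      omega
    have h0 : exp b ≤ Valued.v ((N.choose (t0 + 1) : LaurentSeries F) * (eta F ^ (t0 + 1)) s) := by
      rw [map_mul, hb]
      exact le_mul_of_one_le_left' (one_le_v (natCast_mem (A F) _) hc)
    have hv := v_sum_eq ht0N
      (fun t => (N.choose (t + 1) : LaurentSeries F) * (eta F ^ (t + 1)) s) 0 b h0
      (fun j _ hj => ?_) (by simp)
    · intro h
      rw [iterate_eq, Finset.sum_range_succ'] at h
      simp only [Nat.choose_zero_right, Nat.cast_one, pow_zero, AddMonoid.End.coe_one, id_eq,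
        one_mul, add_eq_right] at h
      rw [h, add_zero, map_zero] at hv
      exact absurd (hv ▸ h0) (not_le.2 exp_pos)
    · rcases lt_or_gt_of_ne hj with hj | hj
      · have : (N.choose (j + 1) : LaurentSeries F) = 0 := by
          simpa using Nat.find_min hex hj
        simp [this]
      · obtain ⟨k, rfl⟩ : ∃ k, j = k + 1 + t0 := ⟨j - 1 - t0, by omega⟩
        rw [map_mul, show k + 1 + t0 + 1 = (k + 1) + (t0 + 1) by ring, pow_add,
          AddMonoid.End.coe_mul, Function.comp_apply]
        refine (mul_le_of_le_one_left' (v_natCast_le _)).trans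
          ((v_eta_pow_le hb.le hb1 (k + 1)).trans ?_)
        rw [exp_le_exp]; omega

theorem telescope (s : LaurentSeries F) (N : ℕ) :
    ex F (∑ j ∈ range N, (ex F)^[j] s) - ∑ j ∈ range N, (ex F)^[j] s = (ex F)^[N] s - s := by
  induction N with
  | zero =>
    have h1 : ex F 0 - 0 = 0 := map_zero (eta F)
    simpa using h1
  | succ N ih =>
    rw [Finset.sum_range_succ, ex_add, Function.iterate_succ_apply']
    linear_combination ih

theorem iter (h : MainStmt F) (hq : 3 ≤ Fintype.card F) {s : LaurentSeries F} (hs : s ≠ 0)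
    {N : ℕ} (hN : 1 ≤ N) : Transcendental (kk F) ((ex F)^[N] s - s) := by
  have hinj : ∀ z, ex F z - z = 0 → z = 0 := by
    intro z hz
    by_contra h0
    exact h hq z h0 (by rw [hz]; exact isAlgebraic_zero)
  rw [← telescope]
  refine h hq _ fun h0 => iterate_ne hq hinj hs hN ?_
  have := telescope s N
  rw [h0] at this
  have h1 : ex F 0 - 0 = 0 := map_zero (eta F)
  rw [h1] at this
  exact (sub_eq_zero.1 this.symm)

end Pool.Agent.CarlAn
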