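import Pool.Agent.Lib.MP_0370b2_nt.CS.Ore

/-! The inequality of Liouville for additive combinations of an algebraic series. -/

namespace Pool.Agent.Carl

open Finset WithZero Matrix

set_option linter.unusedSectionVars false

variable {F : Type} [Field F] [Fintype F]

namespace LiouL

variable {ι : Type} [Fintype ι] [DecidableEq ι] {N : Matrix ι ι (LaurentSeries F)}

theorem det_mem (h : ∀ a b, N a b ∈ A F) : N.det ∈ A F := by
  rw [det_apply']
  exact sum_mem fun σ _ => mul_mem (intCast_mem _ _) (prod_mem fun i _ => h _ _)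

theorem det_le {B : ℤ} (h : ∀ a b, Valued.v (N a b) ≤ exp B) :
    Valued.v N.det ≤ exp ((Fintype.card ι : ℤ) * B) := by
  rw [det_apply']
  refine Valuation.map_sum_le _ fun σ _ => ?_
  rw [map_mul]
  exact (mul_le_mul' (intCast_mem (Valued.v (R := LaurentSeries F)).integer _)
    (v_prod_le _ _ B fun i _ => h _ _)).trans_eq (one_mul _)

theorem adj_le {B : ℕ} (h : ∀ a b, Valued.v (N a b) ≤ exp (B : ℤ)) (a b : ι) :
    Valued.v (N.adjugate a b) ≤ exp ((Fintype.card ι : ℤ) * B) := by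
  rw [adjugate_apply]
  refine det_le fun i j => ?_
  rw [updateRow_apply]
  split_ifs
  · rw [Pi.single_apply]
    split_ifs
    · rw [map_one, ← exp_zero, exp_le_exp]; positivity
    · simp
  · exact h i j

theorem eig {B C : ℕ} (h : ∀ a b, N a b ∈ A F ∧ Valued.v (N a b) ≤ exp (B : ℤ)) (h0 : N.det ≠ 0)
    {e : ι → LaurentSeries F} (he : ∀ a, Valued.v (e a) ≤ exp (C : ℤ)) {x : LaurentSeries F}
    (hx : e ᵥ* N = x • e) (a : ι) :
    Valued.v (e a) ≤ Valued.v x * exp ((C : ℤ) + Fintype.card ι * B) := by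
  have := congrFun (congrArg (· ᵥ* N.adjugate) hx) a
  simp only [vecMul_vecMul, mul_adjugate, vecMul_smul, vecMul_one, smul_vecMul, Pi.smul_apply,
    smul_eq_mul] at this
  refine (le_mul_of_one_le_left' (one_le_v (det_mem fun a b => (h a b).1) h0)).trans ?_
  rw [← map_mul, this, map_mul]
  refine mul_le_mul_right (Valuation.map_sum_le _ fun c _ => ?_) _
  rw [map_mul, exp_add]
  exact mul_le_mul' (he c) (adj_le (fun a b => (h a b).2) c a)

end LiouL

open LiouL OreL IntermediateField in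
theorem liou : LiouStmt F := by
  intro φ hφ g
  have := adjoin.finiteDimensional hφ.isIntegral
  let b := Module.finBasis (kk F) (kk F)⟮φ⟯
  let ρ := Algebra.leftMulMatrix b
  let y : ℕ → (kk F)⟮φ⟯ := fun i => AdjoinSimple.gen (kk F) φ ^ (Fintype.card F ^ i)
  obtain ⟨β, b1, b2, b3⟩ := den (range g ×ˢ univ ×ˢ univ) (fun p => (ρ (y p.1) p.2.1 p.2.2).1)
    fun p => (ρ (y p.1) p.2.1 p.2.2).2
  obtain ⟨C0, h0⟩ := bnd (range g ×ˢ univ ×ˢ univ) fun p => β * (ρ (y p.1) p.2.1 p.2.2).1
  obtain ⟨C1, h1⟩ := bnd univ fun a => (b a).1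
  obtain ⟨C2, h2⟩ := exists_v_le β
  obtain ⟨a⟩ := b.index_nonempty
  obtain ⟨t, ht⟩ := exists_v_eq (z := (b a).1) fun h => b.ne_zero a (Subtype.ext h)
  generalize hn : Fintype.card (Fin (Module.finrank (kk F) (kk F)⟮φ⟯)) = n
  refine ⟨n + n * C0 + C1 + C2 + t.natAbs, fun H d hd hw => ?_⟩
  let x : (kk F)⟮φ⟯ :=
    ∑ i ∈ range g, (⟨d i * β, A_sub_kk (mul_mem (hd i).1 b1)⟩ : kk F) • y i
  have ex : x.1 = β * ∑ i ∈ range g, d i * φ ^ (Fintype.card F ^ i) := by
    rw [AddSubmonoidClass.coe_finsetSum, mul_sum]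
    exact sum_congr rfl fun i _ => (mul_right_comm _ _ _).trans (mul_comm _ _)
  have x0 : x ≠ 0 := fun h => mul_ne_zero b2 hw (ex ▸ congrArg Subtype.val h)
  have en : ∀ i j, (ρ x i j).1 = ∑ l ∈ range g, d l * (β * (ρ (y l) i j).1) := fun i j => by
    simp only [x, map_sum, map_smul, Matrix.sum_apply, AddSubmonoidClass.coe_finsetSum]
    exact sum_congr rfl fun l _ => mul_assoc _ _ _
  have := eig (N := (algebraMap (kk F) (LaurentSeries F)).mapMatrix (ρ x)) (B := H + C0)
    (fun i j => by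
      change (ρ x i j).1 ∈ _ ∧ Valued.v (ρ x i j).1 ≤ _
      rw [en]
      refine ⟨sum_mem fun l hl => mul_mem (hd l).1 (b3 (l, i, j) (by simpa using hl)),
        Valuation.map_sum_le _ fun l hl => ?_⟩
      rw [map_mul, Nat.cast_add, exp_add]
      exact mul_le_mul' (hd l).2 (h0 (l, i, j) (by simpa using hl)))
    ((isUnit_iff_isUnit_det _).1 ((x0.isUnit.map ρ).map _)).ne_zero (fun a => h1 a (mem_univ a))
    (x := x.1) (funext fun j => by
      have := congrArg Subtype.val (b.sum_repr (x * b j))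
      rw [AddSubmonoidClass.coe_finsetSum] at this
      refine Eq.trans ?_ this
      rw [vecMul, dotProduct]
      refine sum_congr rfl fun i _ => ?_
      rw [← Algebra.leftMulMatrix_eq_repr_mul]
      exact mul_comm _ _) a
  obtain ⟨u, hu⟩ := exists_v_eq hw
  rw [ht, ex, map_mul, hu, hn] at this
  have := this.trans (mul_le_mul_left (mul_le_mul_left h2 _) _)
  rw [← exp_add, ← exp_add, exp_le_exp] at this
  rw [hu, exp_le_exp]
  have h3 := Nat.le_mul_of_pos_right (n * C0 + C1 + C2 + t.natAbs) H.succ_pos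
  have h4 : (n + n * C0 + C1 + C2 + t.natAbs) * (H + 1) =
      n * H + n + (n * C0 + C1 + C2 + t.natAbs) * H.succ := by rw [Nat.succ_eq_add_one]; ring
  rw [h4]
  rw [Nat.cast_add, mul_add, ← Nat.cast_mul, ← Nat.cast_mul] at this
  omega

end Pool.Agent.Carl
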