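import Pool.Agent.Lib.MP_0370b2_nt.CS.An
import Pool.Agent.Lib.MP_0370b2_nt.CS.Car

/-! The main step: `e(s) - s` is transcendental. -/

namespace Pool.Agent.CarlAn

open Finset WithZero Filter Topology Pool.Agent.Carl

variable {F : Type} [Field F] [Fintype F]

theorem exists_E (K : ℕ) : ∃ E : ℕ, 1 ≤ E ∧ K * (E ^ 2 + 1) < 3 ^ E := by
  refine ⟨3 * (10 * K + 1), by omega, ?_⟩
  set n := 10 * K + 1 with hn
  have h1 : n < 3 ^ n := Nat.lt_pow_self (by norm_num)
  have h2 : n ^ 3 ≤ 3 ^ (3 * n) := by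
    rw [mul_comm, pow_mul]
    exact Nat.pow_le_pow_left h1.le 3
  have h3 : 1 ≤ n := by omega
  have h4 : K * ((3 * n) ^ 2 + 1) ≤ 10 * K * n ^ 2 := by
    have : 1 ≤ n ^ 2 := Nat.one_le_pow _ _ h3
    nlinarith
  have h5 : 10 * K * n ^ 2 < n ^ 3 := by
    have : 0 < n ^ 2 := by positivity
    have h6 : 10 * K < n := by omega
    calc 10 * K * n ^ 2 < n * n ^ 2 := Nat.mul_lt_mul_of_pos_right h6 this
      _ = n ^ 3 := by ring
  omega

theorem exists_ne (M : ℕ) (lam : ℕ → LaurentSeries F) (h : ∃ r < M, lam r ≠ 0) :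
    ∃ j : ℕ, ∑ r ∈ range M, lam r * (th F ^ (Fintype.card F ^ j)) ^ (M - 1 - r) ≠ 0 := by
  by_contra hc
  push Not at hc
  obtain ⟨r0, hr0, hne⟩ := h
  set p : Polynomial (LaurentSeries F) :=
    ∑ r ∈ range M, Polynomial.monomial (M - 1 - r) (lam r) with hp
  have h0 : p = 0 := by
    refine Polynomial.eq_zero_of_infinite_isRoot p ?_
    refine Set.infinite_of_injective_forall_mem
      (f := fun j : ℕ => th F ^ (Fintype.card F ^ j)) ?_ ?_
    · intro a b hab
      have := congrArg Valued.v hab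
      simp only [v_th_pow, exp_inj, Nat.cast_inj] at this
      exact Nat.pow_right_injective Fintype.one_lt_card this
    · intro j
      simp only [Set.mem_setOf_eq, Polynomial.IsRoot, hp, Polynomial.eval_finset_sum,
        Polynomial.eval_monomial]
      exact hc j
  have h1 := congrArg (fun p => Polynomial.coeff p (M - 1 - r0)) h0
  simp only [hp, Polynomial.finset_sum_coeff, Polynomial.coeff_monomial,
    Polynomial.coeff_zero] at h1
  rw [Finset.sum_eq_single r0] at h1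
  · exact hne (by simpa using h1)
  · intro b hb hbr
    have := mem_range.1 hb
    rw [if_neg (by omega)]
  · intro h; exact absurd (mem_range.2 hr0) h

theorem v_sum_eq {J j0 : ℕ} (hj : j0 < J) (P : ℕ → LaurentSeries F) (t : LaurentSeries F) (b : ℤ)
    (h0 : exp b ≤ Valued.v (P j0)) (h1 : ∀ j < J, j ≠ j0 → Valued.v (P j) ≤ exp (b - 1))
    (h2 : Valued.v t ≤ exp (b - 1)) :
    Valued.v (∑ j ∈ range J, P j + t) = Valued.v (P j0) := by
  rw [← Finset.add_sum_erase _ _ (mem_range.2 hj), add_assoc]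
  refine Valuation.map_add_eq_of_lt_left _ (lt_of_lt_of_le ?_ h0)
  refine lt_of_le_of_lt (b := exp (b - 1)) ?_ (exp_lt_exp.2 (by omega))
  refine Valuation.map_add_le _ (Valuation.map_sum_le _ fun j hj => ?_) h2
  exact h1 j (mem_range.1 (mem_of_mem_erase hj)) (ne_of_mem_erase hj)

theorem split_ex (s : LaurentSeries F) {E : ℕ} (hE : 1 ≤ E) (J : ℕ) :
    ex F s - s = ∑ i ∈ Ico 1 E, s ^ (Fintype.card F ^ i) / D F i +
      (∑ j ∈ range J, s ^ (Fintype.card F ^ (j + E)) / D F (j + E) +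
        ∑' i, s ^ (Fintype.card F ^ (i + (E + J))) / D F (i + (E + J))) := by
  rw [ex_eq_sum_add s (E + J), Finset.sum_range_add, Finset.range_eq_Ico,
    Finset.sum_eq_sum_Ico_succ_bot (by omega : 0 < E)]
  have h0 : s ^ Fintype.card F ^ 0 / D F 0 = s := by simp [D]
  rw [h0]
  simp only [add_comm E, zero_add]
  ring

theorem gap_num {d j j0 m h Q x y : ℤ} (hx : 1 ≤ x) (hy : 3 * x ≤ y) (hj : j0 + 1 ≤ j)
    (hj0 : 0 ≤ j0) (hdm : d ≤ m) (hh : 0 ≤ h) (hgap : h + 2 * d + Q ≤ 3 * m) :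
    (d - j - m - 1) * y + h ≤ (d - j0 - Q) * x - 1 := by
  have h7 : (d - j - m - 1) * y ≤ (d - j0 - m - 2) * (3 * x) := by
    have a1 : (d - j - m - 1) * y ≤ (d - j0 - m - 2) * y :=
      mul_le_mul_of_nonneg_right (by linarith) (by linarith)
    have a2 : (d - j0 - m - 2) * y ≤ (d - j0 - m - 2) * (3 * x) :=
      mul_le_mul_of_nonpos_left hy (by linarith)
    linarith
  have h8 : (h + 1) * 1 ≤ (3 * m + 6 + 2 * j0 - 2 * d - Q) * x :=
    mul_le_mul (by linarith) hx (by linarith) (by linarith)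
  linarith

/-- The value of `Λ(ℓ f)` is non-zero and small. -/
theorem lam_small (hq : 3 ≤ Fintype.card F) (h2 : PFStmt F) {s : LaurentSeries F} {d : ℤ}
    (hd : Valued.v s = exp d) {E m M : ℕ} {h : ℤ} (hE : 1 ≤ E)
    (hm : m + M = Fintype.card F ^ E) (lam : ℕ → LaurentSeries F)
    (hl : ∀ r, lam r ∈ A F ∧ Valued.v (lam r) ≤ exp h) (hl0 : ∃ r < M, lam r ≠ 0)
    (hK : Kill F E m M lam) (hdm : d ≤ m)
    (hgap : h + 2 * d + (Fintype.card F : ℤ) ^ E ≤ 3 * m) :
    Lam F E m M lam (ell F E * (ex F s - s)) ≠ 0 ∧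
      Valued.v (Lam F E m M lam (ell F E * (ex F s - s))) ≤ exp (h + d - m - 1) := by
  classical
  set q := Fintype.card F with hqdef
  have hM : 1 ≤ M := by obtain ⟨r, hr, _⟩ := hl0; omega
  have hmZ : (m : ℤ) + M = (q : ℤ) ^ E := by exact_mod_cast hm
  set p : ℕ → LaurentSeries F := fun j => ∑ r ∈ range M, lam r * (th F ^ (q ^ j)) ^ (M - 1 - r)
    with hp
  set P : ℕ → LaurentSeries F := fun j =>
    s ^ (q ^ j) / D F j * p j / (th F ^ (q ^ (j + E)) - th F) with hP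
  have hden : ∀ j, Valued.v (th F ^ (q ^ (j + E)) - th F) = exp ((q : ℤ) ^ E * (q : ℤ) ^ j) := by
    intro j
    have := v_th_sub F (a := q ^ (j + E)) (b := 1)
      (Nat.one_lt_pow (by omega) Fintype.one_lt_card)
    rw [pow_one] at this
    rw [this]; congr 1; push_cast; ring
  have hpv : ∀ j, Valued.v (p j) ≤ exp (h + ((M : ℤ) - 1) * (q : ℤ) ^ j) := by
    intro j
    refine Valuation.map_sum_le _ fun r hr => ?_
    have hr' := mem_range.1 hr
    refine (v_mul_le (hl r).2 (v_pow_eq (v_th_pow F (q ^ j)) _).le).trans ?_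
    rw [exp_le_exp]
    have h1 : ((M - 1 - r : ℕ) : ℤ) ≤ (M : ℤ) - 1 := by omega
    have h3 := one_le_qpow (F := F) j
    push_cast
    nlinarith
  have hPv : ∀ j, Valued.v (P j) ≤ exp ((d - j - m - 1) * (q : ℤ) ^ j + h) := by
    intro j
    simp only [hP]
    rw [map_div₀, hden, div_le_iff₀ exp_pos, ← exp_add]
    refine (v_mul_le (v_term_eq hd j).le (hpv j)).trans ?_
    rw [exp_le_exp, ← hmZ]
    apply le_of_eq; ring
  have hex := exists_ne M lam hl0
  set j0 := Nat.find hex with hj0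
  have hp0 : p j0 ≠ 0 := Nat.find_spec hex
  have hpA : p j0 ∈ A F :=
    sum_mem fun r _ => mul_mem (hl r).1 (pow_mem (pow_mem th_mem _) _)
  set b : ℤ := (d - j0 - (q : ℤ) ^ E) * (q : ℤ) ^ j0 with hb
  have hP0 : exp b ≤ Valued.v (P j0) := by
    simp only [hP]
    rw [map_div₀, hden, le_div_iff₀ exp_pos, ← exp_add, map_mul, v_term_eq hd]
    refine le_trans (le_of_eq ?_) (le_mul_of_one_le_right' (one_le_v hpA hp0))
    congr 1; rw [hb]; ring
  set J : ℕ := j0 + 1 + (d.natAbs + h.natAbs + b.natAbs) with hJ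
  have hL : Lam F E m M lam (ell F E * (ex F s - s)) = ∑ j ∈ range J, P j +
      Lam F E m M lam (ell F E * ∑' i, s ^ (q ^ (i + (E + J))) / D F (i + (E + J))) := by
    rw [split_ex s hE J, mul_add, mul_add, Lam_add, Lam_add, Finset.mul_sum, Finset.mul_sum,
      Lam_sum, Lam_sum, Finset.sum_eq_zero, zero_add]
    · congr 1
      exact Finset.sum_congr rfl fun j _ => h2 E m M lam hE hm hK s j
    · intro i hi
      have := hK i (mem_Ico.1 hi).1 (mem_Ico.1 hi).2 s
      rw [← this]; congr 1; ring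
  have hJZ : (J : ℤ) = j0 + 1 + (|d| + |h| + |b|) := by rw [hJ]; push_cast; ring
  have hd1 := le_abs_self d
  have hh1 := le_abs_self h
  have hb1 := neg_abs_le b
  have hd2 := abs_nonneg d
  have hh2 := abs_nonneg h
  have hb2 := abs_nonneg b
  have hj0Z : (0 : ℤ) ≤ j0 := Int.natCast_nonneg _
  have hEZ : (1 : ℤ) ≤ E := by exact_mod_cast hE
  have ht : Valued.v (Lam F E m M lam
      (ell F E * ∑' i, s ^ (q ^ (i + (E + J))) / D F (i + (E + J)))) ≤ exp (b - 1) := by
    have h1 := v_mul_le (v_ell (F := F) E)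
      (v_tail_le hd.le (E + J) (by push_cast; linarith))
    have h3 := Lam_val (E := E) (m := m) (M := M) (lam := lam)
      (d := E + (d - (E + J : ℕ)) * (q : ℤ) ^ J) (fun r => (hl r).2)
      (h1.trans (le_of_eq (by congr 1; push_cast; ring)))
    refine h3.trans ?_
    rw [exp_le_exp]
    have h4 := one_le_qpow (F := F) J
    push_cast
    nlinarith
  have hv := v_sum_eq (J := J) (j0 := j0) (by omega) P _ b hP0 (fun j _ hj => ?_) ht
  · rw [hL, ← Valuation.ne_zero_iff Valued.v, hv]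
    refine ⟨(lt_of_lt_of_le exp_pos hP0).ne', (hPv j0).trans ?_⟩
    rw [exp_le_exp]
    have h4 := one_le_qpow (F := F) j0
    nlinarith
  · rcases lt_or_gt_of_ne hj with hj | hj
    · have : p j = 0 := by
        have := Nat.find_min hex hj
        simpa using this
      simp [hP, this]
    · refine (hPv j).trans ?_
      rw [exp_le_exp, hb]
      have h4 := one_le_qpow (F := F) j0
      have h5 : 3 * (q : ℤ) ^ j0 ≤ (q : ℤ) ^ j := by
        have hq' : (3 : ℤ) ≤ q := by exact_mod_cast hq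
        calc 3 * (q : ℤ) ^ j0 ≤ q * (q : ℤ) ^ j0 := by nlinarith
          _ = (q : ℤ) ^ (j0 + 1) := by ring
          _ ≤ (q : ℤ) ^ j := pow_le_pow_right₀ (by linarith) hj
      have h6 : (j0 : ℤ) + 1 ≤ j := by exact_mod_cast hj
      have h10 : 0 ≤ h := by
        obtain ⟨r, _, hr⟩ := hl0
        have := (one_le_v (hl r).1 hr).trans (hl r).2
        rwa [← exp_zero, exp_le_exp] at this
      exact gap_num h4 h5 h6 hj0Z hdm h10 hgap

theorem main (h1 : SiegStmt F) (h2 : PFStmt F) (h3 : OreStmt F) (h4 : LiouStmt F) :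
    MainStmt F := by
  intro hq s hs halg
  obtain ⟨g, N, φ, a0, hφ, ha0, hva, hf, hc⟩ := h3 _ halg
  obtain ⟨C, hC⟩ := h4 φ hφ g
  obtain ⟨d, hd⟩ := exists_v_eq hs
  obtain ⟨E, hE, hEK⟩ := exists_E (5 * (33 + 2 * d.natAbs + C * (32 + 2 * N)))
  set q := Fintype.card F with hqdef
  have hQ : 5 * (33 + 2 * d.natAbs + C * (32 + 2 * N)) * (E ^ 2 + 1) < q ^ E :=
    lt_of_lt_of_le hEK (Nat.pow_le_pow_left hq E)
  set m := 2 * q ^ E / 5 with hmdef
  have hm : m + (q ^ E - m) = q ^ E := by omega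
  obtain ⟨lam, hl, hl0, hK⟩ := h1 hq E m (q ^ E - m) hE hm (by show 5 * m ≤ 2 * q ^ E; omega)
  obtain ⟨c, hcA, hφc⟩ := hc E
  have hm5 : 2 * (q : ℤ) ^ E ≤ 5 * m + 4 := by
    have : 2 * q ^ E ≤ 5 * m + 4 := by omega
    exact_mod_cast this
  have hQZ : 5 * (33 + 2 * |d| + C * (32 + 2 * N)) * ((E : ℤ) ^ 2 + 1) < (q : ℤ) ^ E := by
    have := (Int.ofNat_lt.2 hQ)
    push_cast at this
    exact this
  have hd1 := le_abs_self d
  have hd2 := abs_nonneg d
  have hEZ : (1 : ℤ) ≤ E := by exact_mod_cast hE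
  have hE2 : (E : ℤ) ≤ (E : ℤ) ^ 2 := by nlinarith
  have hCN : (0 : ℤ) ≤ C * (32 + 2 * N) := by positivity
  have hA : (0 : ℤ) ≤ |d| * (E : ℤ) ^ 2 := by positivity
  have hB : (0 : ℤ) ≤ C * (32 + 2 * N) * ((E : ℤ) ^ 2 + 1) := by positivity
  obtain ⟨hne, hle⟩ := lam_small hq h2 hd hE hm lam hl hl0 hK (by nlinarith)
    (by push_cast; nlinarith)
  have hL : Lam F E m (q ^ E - m) lam (ell F E * (ex F s - s)) =
      ∑ i ∈ range g, Lam F E m (q ^ E - m) lam (ell F E * a0 * c i) * φ ^ (q ^ i) := by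
    rw [hf]
    conv_lhs => rw [hφc]
    rw [Finset.mul_sum, Finset.mul_sum, Lam_sum]
    refine Finset.sum_congr rfl fun i _ => ?_
    rw [mul_comm _ (φ ^ q ^ i), ← Lam_semi hm]
    congr 1; ring
  rw [hL] at hne hle
  have h5 := hC (30 * E ^ 2 + (E + 2 * N)) _ (fun i => ⟨Lam_mem hm (fun r => (hl r).1)
    (mul_mem (mul_mem (ell_mem E) ha0) (hcA i).1), ?_⟩) hne
  · have h6 := h5.trans hle
    rw [exp_le_exp] at h6
    push_cast at h6
    have hN : (0 : ℤ) ≤ N := Int.natCast_nonneg _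
    have hC0 : (0 : ℤ) ≤ C := Int.natCast_nonneg _
    have h7 : (30 * (E : ℤ) ^ 2 + (E + 2 * N) + 1) ≤ (32 + 2 * N) * ((E : ℤ) ^ 2 + 1) := by
      nlinarith [mul_nonneg hN (sq_nonneg (E : ℤ))]
    have h8 := mul_le_mul_of_nonneg_left h7 hC0
    nlinarith
  · have h6 := v_mul_le (v_mul_le (v_ell (F := F) E) hva) (hcA i).2
    have h7 := Lam_val (E := E) (m := m) (M := q ^ E - m) (lam := lam)
      (d := E + 2 * N) (fun r => (hl r).2) (h6.trans ?_)
    · refine h7.trans (le_of_eq ?_)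
      congr 1
    · rw [exp_le_exp]
      have h8 := one_le_qpow (F := F) E
      have hN : (0 : ℤ) ≤ N := Int.natCast_nonneg _
      push_cast
      nlinarith

end Pool.Agent.CarlAn
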