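import Pool.Agent.Lib.MP_0370b2_nt.CS.Car

/-! The additive equation of an algebraic series and its iterates. -/

namespace Pool.Agent.Carl

open Finset WithZero

variable {F : Type} [Field F] [Fintype F]

namespace OreL

theorem den {ι : Type} (s : Finset ι) (x : ι → LaurentSeries F) (h : ∀ i, x i ∈ kk F) :
    ∃ b ∈ A F, b ≠ 0 ∧ ∀ i ∈ s, b * x i ∈ A F := by
  classical
  induction s using Finset.induction_on with
  | empty => exact ⟨1, one_mem _, one_ne_zero, by simp⟩
  | insert j s _ ih =>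
    obtain ⟨b, b1, b2, b3⟩ := ih
    obtain ⟨c, c1, c2, c3⟩ := kk_frac (h j)
    refine ⟨b * c, mul_mem b1 c1, mul_ne_zero b2 c2, fun i hi => ?_⟩
    rcases mem_insert.1 hi with rfl | hi
    · rw [mul_assoc]; exact mul_mem b1 c3
    · rw [mul_right_comm]; exact mul_mem (b3 i hi) c1

theorem bnd {ι : Type} (s : Finset ι) (x : ι → LaurentSeries F) :
    ∃ N : ℕ, ∀ i ∈ s, Valued.v (x i) ≤ exp (N : ℤ) := by
  choose N hN using fun i => exists_v_le (x i)
  exact ⟨s.sup N, fun i hi => (hN i).trans (exp_le_exp.2 (by exact_mod_cast le_sup hi))⟩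

theorem rel {f : LaurentSeries F} (hf : IsAlgebraic (kk F) f) :
    ∃ (n j : ℕ) (α : ℕ → LaurentSeries F), (∀ i, α i ∈ A F) ∧ j < n ∧ α j ≠ 0 ∧
      ∑ i ∈ range n, α i * f ^ (Fintype.card F ^ i) = 0 := by
  have := IntermediateField.adjoin.finiteDimensional hf.isIntegral
  obtain ⟨s, g, e, j, hj, h0⟩ := not_linearIndependent_iff.1
    (Module.Finite.not_linearIndependent_of_infinite (R := kk F)
      fun i : ℕ => IntermediateField.AdjoinSimple.gen (kk F) f ^ (Fintype.card F ^ i))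
  obtain ⟨b, b1, b2, b3⟩ := den s (fun i => (g i).1) fun i => (g i).2
  have le : s ⊆ range (s.sup id + 1) := fun i hi =>
    mem_range.2 (Nat.lt_succ_of_le (le_sup (f := id) hi))
  refine ⟨s.sup id + 1, j, fun i => if i ∈ s then b * g i else 0, fun i => ?_, mem_range.1 (le hj),
    ?_, ?_⟩
  · beta_reduce
    split_ifs with h
    exacts [b3 i h, zero_mem _]
  · simp only [if_pos hj]
    exact mul_ne_zero b2 fun h => h0 (Subtype.ext h)
  · rw [← sum_subset le fun i _ h => by simp only [if_neg h, zero_mul],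
      sum_congr rfl fun i h => by simp only [if_pos h, mul_assoc]; rfl, ← mul_sum]
    have := congrArg Subtype.val e
    rw [AddSubmonoidClass.coe_finsetSum] at this
    exact mul_eq_zero_of_right _ this

theorem rel0 (f : LaurentSeries F) (j : ℕ) : ∀ (n : ℕ) (α : ℕ → LaurentSeries F),
    (∀ i, α i ∈ A F) → j < n → α j ≠ 0 → ∑ i ∈ range n, α i * f ^ (Fintype.card F ^ i) = 0 →
    ∃ (n : ℕ) (α : ℕ → LaurentSeries F), (∀ i, α i ∈ A F) ∧ α 0 ≠ 0 ∧
      ∑ i ∈ range (n + 1), α i * f ^ (Fintype.card F ^ i) = 0 := by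
  induction j with
  | zero =>
    rintro (_ | n) α h1 h2 h3 h4
    exacts [absurd h2 (lt_irrefl 0), ⟨n, α, h1, h3, h4⟩]
  | succ j ih =>
    rintro (_ | n) α h1 h2 h3 h4
    · exact absurd h2 (Nat.not_lt_zero _)
    by_cases h : α 0 = 0
    swap
    · exact ⟨n, α, h1, h, h4⟩
    obtain ⟨r, hr, h5⟩ : ∃ r < Fintype.card F ^ 1, U F 1 r (α (j + 1)) ≠ 0 := by
      by_contra! e
      refine h3 ((U_decomp 1 _).trans (sum_eq_zero fun r hr => ?_))
      rw [e r (mem_range.1 hr), zero_pow (q_pos 1).ne', mul_zero]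
    refine ih n (fun i => U F 1 r (α (i + 1))) (fun i => U_mem hr (h1 _)) (by omega) h5 ?_
    rw [sum_range_succ', h, zero_mul, add_zero] at h4
    rw [← map_zero (U F 1 r), ← h4, map_sum]
    refine sum_congr rfl fun i _ => ?_
    rw [pow_add, pow_mul, mul_comm (α _), U_semi hr, mul_comm]

theorem iter {φ : LaurentSeries F} {g N : ℕ} {c : ℕ → LaurentSeries F}
    (h1 : ∀ i, c i ∈ A F ∧ Valued.v (c i) ≤ exp (N : ℤ)) (h2 : ∀ i, g < i → c i = 0)
    (h3 : φ = ∑ i ∈ range (g + 1), c i * φ ^ (Fintype.card F ^ (i + 1))) (E : ℕ) :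
    ∃ d : ℕ → LaurentSeries F, (∀ i, g < i → d i = 0) ∧
      (∀ i, d i ∈ A F ∧ Valued.v (d i) ≤ exp ((N * Fintype.card F ^ E : ℕ) : ℤ)) ∧
      φ = ∑ i ∈ range (g + 1), d i * (φ ^ (Fintype.card F ^ i)) ^ (Fintype.card F ^ E) := by
  induction E with
  | zero =>
    refine ⟨fun i => if i = 0 then 1 else 0, fun i hi => if_neg (by omega), fun i => ?_, by simp⟩
    beta_reduce
    split_ifs
    · exact ⟨one_mem _, by rw [map_one, ← exp_zero, exp_le_exp]; positivity⟩
    · exact ⟨zero_mem _, by simp⟩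
  | succ E ih =>
    obtain ⟨d, d1, d2, d3⟩ := ih
    have hq : 2 * (N * Fintype.card F ^ E) ≤ N * Fintype.card F ^ (E + 1) := by
      rw [pow_succ, ← mul_assoc N, mul_comm 2]
      exact Nat.mul_le_mul_left _ Fintype.one_lt_card
    refine ⟨fun i => d 0 * c i ^ (Fintype.card F ^ E) + d (i + 1), fun i hi => ?_,
      fun i => ⟨add_mem (mul_mem (d2 0).1 (pow_mem (h1 i).1 _)) (d2 _).1,
        Valuation.map_add_le _ ?_ ((d2 _).2.trans (exp_le_exp.2 (by omega)))⟩, ?_⟩
    · simp only [h2 i hi, d1 (i + 1) (by omega), zero_pow (q_pos E).ne', mul_zero, add_zero]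
    · rw [map_mul, map_pow]
      refine (mul_le_mul' (d2 0).2 (pow_le_pow_left₀ zero_le (h1 i).2 _)).trans ?_
      rw [← exp_nsmul, ← exp_add, exp_le_exp, nsmul_eq_mul, ← Nat.cast_mul, mul_comm _ N]
      omega
    · have e : ∀ i, (φ ^ (Fintype.card F ^ i)) ^ (Fintype.card F ^ (E + 1)) =
          (φ ^ (Fintype.card F ^ (i + 1))) ^ (Fintype.card F ^ E) := fun i => by
        rw [← pow_mul, ← pow_mul, ← pow_add, ← pow_add, add_assoc, add_comm 1]
      have e' : φ ^ (Fintype.card F ^ E) = _ := (congrArg (· ^ _) h3).trans (frob_sum E _ _)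
      simp only [add_mul, sum_add_distrib, e, mul_assoc, ← mul_sum, ← mul_pow, ← e']
      rw [sum_range_succ, d1 (g + 1) (by omega), zero_mul, add_zero, add_comm]
      rwa [sum_range_succ', pow_zero, pow_one] at d3

end OreL

open OreL in
theorem ore : OreStmt F := by
  intro f hf
  obtain ⟨n, j, α, h1, h2, h3, h4⟩ := rel hf
  obtain ⟨g, α, h1, h2, h3⟩ := rel0 f j n α h1 h2 h3 h4
  let c : ℕ → LaurentSeries F := fun i =>
    if i < g then -α (i + 1) * α 0 ^ (Fintype.card F ^ (i + 1) - 2) else 0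
  obtain ⟨N, hN⟩ := bnd (range g) c
  obtain ⟨N', hN'⟩ := exists_v_le (α 0)
  refine ⟨g + 1, N + N', f / α 0, α 0, ?_, h1 0, hN'.trans (exp_le_exp.2 (by omega)),
    (mul_div_cancel₀ _ h2).symm, fun E => ?_⟩
  · rw [div_eq_mul_inv]
    exact hf.mul (isAlgebraic_algebraMap (⟨α 0, A_sub_kk (h1 0)⟩ : kk F)).inv
  refine (iter (c := c) (fun i => ?_) (fun i hi => if_neg (by omega)) ?_ E).imp fun d h => h.2
  · by_cases h : i < g
    · exact ⟨by
        simp only [c, if_pos h]
        exact mul_mem (neg_mem (h1 _)) (pow_mem (h1 0) _),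
        (hN i (mem_range.2 h)).trans (exp_le_exp.2 (by omega))⟩
    · simp only [c, if_neg h]
      exact ⟨zero_mem _, by simp⟩
  · rw [sum_range_succ', pow_zero, pow_one] at h3
    rw [sum_range_succ, show c g = 0 from if_neg (lt_irrefl g), zero_mul, add_zero]
    refine mul_left_cancel₀ (pow_ne_zero 2 h2) ?_
    rw [show α 0 ^ 2 * (f / α 0) = α 0 * f by field_simp, eq_neg_of_add_eq_zero_right h3, mul_sum,
      ← sum_neg_distrib]
    refine sum_congr rfl fun i hi => ?_
    have : 2 ≤ Fintype.card F ^ (i + 1) := Nat.one_lt_pow i.succ_ne_zero Fintype.one_lt_card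
    obtain ⟨m, hm⟩ := Nat.exists_eq_add_of_le this
    simp only [c, if_pos (mem_range.1 hi), hm, add_tsub_cancel_left, div_pow]
    field_simp
    ring

end Pool.Agent.Carl
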