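import Pool.Agent.Lib.MP_0370b2_nt.CS.Car

/-! The action of `Λ` on the terms of the exponential series (simple fractions). -/

namespace Pool.Agent.Carl

open Finset WithZero

set_option linter.unusedSectionVars false

variable {F : Type} [Field F] [Fintype F]

theorem sub_pow_ne {a b : ℕ} (h : b < a) : th F ^ a - th F ^ b ≠ 0 := by
  intro h0
  have := v_sub_pow (F := F) h
  rw [h0, map_zero] at this
  exact exp_ne_zero this.symm

theorem D_add (j E : ℕ) : D F (j + E) = D F j ^ (Fintype.card F ^ E) *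
    ∏ u ∈ range E, (th F ^ (Fintype.card F ^ (j + E)) - th F ^ (Fintype.card F ^ u)) := by
  rw [D, D, show range (j + E) = range (E + j) by rw [add_comm], Finset.prod_range_add, mul_comm,
    ← Finset.prod_pow]
  congr 1
  refine Finset.prod_congr rfl fun u _ => ?_
  rw [frob_sub, ← pow_mul, ← pow_mul, ← pow_add, ← pow_add, add_comm u E]

theorem U_inv {E r : ℕ} (hr : r < Fintype.card F ^ E) (c : LaurentSeries F)
    (hc : c ^ (Fintype.card F ^ E) - th F ≠ 0) :
    U F E r (c ^ (Fintype.card F ^ E) - th F)⁻¹ =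
      c ^ (Fintype.card F ^ E - 1 - r) / (c ^ (Fintype.card F ^ E) - th F) := by
  have h1 := geom_sum₂_mul (th F) (c ^ (Fintype.card F ^ E)) (Fintype.card F ^ E)
  have h2 := frob_sub E (c ^ (Fintype.card F ^ E)) (th F)
  have h3 : (c ^ (Fintype.card F ^ E) - th F)⁻¹ = ∑ i ∈ range (Fintype.card F ^ E), th F ^ i *
      (c ^ (Fintype.card F ^ E - 1 - i) / (c ^ (Fintype.card F ^ E) - th F)) ^
        (Fintype.card F ^ E) := by
    have h4 : ∀ i, th F ^ i *
        (c ^ (Fintype.card F ^ E - 1 - i) / (c ^ (Fintype.card F ^ E) - th F)) ^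
          (Fintype.card F ^ E) =
        th F ^ i * (c ^ (Fintype.card F ^ E)) ^ (Fintype.card F ^ E - 1 - i) /
          (c ^ (Fintype.card F ^ E) - th F) ^ (Fintype.card F ^ E) := by
      intro i
      rw [div_pow, ← pow_mul, ← pow_mul, mul_comm (Fintype.card F ^ E - 1 - i), mul_div_assoc]
    rw [Finset.sum_congr rfl fun i _ => h4 i, ← Finset.sum_div, eq_div_iff (pow_ne_zero _ hc),
      inv_mul_eq_iff_eq_mul₀ hc, h2]
    linear_combination h1
  conv_lhs => rw [h3]
  rw [map_sum, Finset.sum_eq_single r]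
  · rw [U_key hr hr, if_pos rfl]
  · intro r' hr' hne
    rw [U_key hr (mem_range.1 hr'), if_neg hne.symm]
  · intro h
    exact absurd (mem_range.2 hr) h

theorem weight_pow {E u i : ℕ} (hu : u < E) (hi : u ≤ i) : ∃ z : LaurentSeries F,
    Lagrange.nodalWeight (range E) (fun v => th F ^ (Fintype.card F ^ v)) u *
      (th F ^ (Fintype.card F ^ i) - th F ^ (Fintype.card F ^ u))⁻¹ =
    (D F u)⁻¹ * z ^ (Fintype.card F ^ u) := by
  obtain ⟨φ, hφ⟩ := exists_frob (F := F) u
  have hx : ∀ v, u ≤ v → th F ^ (Fintype.card F ^ v) ∈ φ.fieldRange := fun v hv =>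
    ⟨th F ^ (Fintype.card F ^ (v - u)), by
      rw [hφ, ← pow_mul, ← pow_add, Nat.sub_add_cancel hv]⟩
  have h1 : ((range E).erase u).filter (· < u) = range u := by
    ext v
    simp only [mem_filter, mem_erase, mem_range]
    omega
  have h2 : (∏ v ∈ ((range E).erase u).filter (fun v => ¬ v < u),
      (th F ^ (Fintype.card F ^ u) - th F ^ (Fintype.card F ^ v))⁻¹) *
      (th F ^ (Fintype.card F ^ i) - th F ^ (Fintype.card F ^ u))⁻¹ ∈ φ.fieldRange :=
    mul_mem (prod_mem fun v hv => inv_mem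
      (sub_mem (hx u le_rfl) (hx v (not_lt.1 (mem_filter.1 hv).2))))
      (inv_mem (sub_mem (hx i hi) (hx u le_rfl)))
  obtain ⟨z, hz⟩ := h2
  refine ⟨z, ?_⟩
  rw [← hφ z, hz, Lagrange.nodalWeight, ← Finset.prod_filter_mul_prod_filter_not _ (· < u), h1, D,
    ← Finset.prod_inv_distrib, mul_assoc]

theorem pf : PFStmt F := by
  intro E m M lam hE hm hk s j
  set x : ℕ → LaurentSeries F := fun v => th F ^ (Fintype.card F ^ v) with hx
  set y : LaurentSeries F := th F ^ (Fintype.card F ^ (j + E)) with hy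
  have hinj : Set.InjOn x (range E : Finset ℕ) := by
    intro a _ b _ hab
    rcases lt_trichotomy a b with h | h | h
    · exact absurd (sub_eq_zero.2 hab.symm) (sub_pow_ne (q_lt h))
    · exact h
    · exact absurd (sub_eq_zero.2 hab) (sub_pow_ne (q_lt h))
  have hyx : ∀ u ∈ range E, y - x u ≠ 0 := fun u hu =>
    sub_pow_ne (q_lt (by have := mem_range.1 hu; omega))
  have h0 : (0 : ℕ) ∈ range E := mem_range.2 (by omega)
  have h1 : (∏ u ∈ range E, (y - x u)) *
      ∑ u ∈ range E, Lagrange.nodalWeight (range E) x u * (y - x u)⁻¹ = 1 := by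
    have h := congrArg (Polynomial.eval y) (Lagrange.sum_basis hinj ⟨0, h0⟩)
    rw [Polynomial.eval_finsetSum, Polynomial.eval_one] at h
    rw [← h, Finset.mul_sum, ← Lagrange.eval_nodal]
    exact Finset.sum_congr rfl fun u hu =>
      (Lagrange.eval_basis_not_at_node hu (sub_ne_zero.1 (hyx u hu))).symm
  have h2 : ell F E * (s ^ (Fintype.card F ^ (j + E)) / D F (j + E)) =
      (s ^ (Fintype.card F ^ j) / D F j) ^ (Fintype.card F ^ E) *
        ∑ u ∈ range E, ell F E * (Lagrange.nodalWeight (range E) x u * (y - x u)⁻¹) := by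
    rw [← Finset.mul_sum, eq_inv_of_mul_eq_one_right h1, D_add, div_pow, ← pow_mul, ← pow_add,
      div_eq_mul_inv, div_eq_mul_inv, mul_inv]
    ring
  have h3 : ell F E * Lagrange.nodalWeight (range E) x 0 = 1 := by
    rw [ell, Lagrange.nodalWeight, ← Finset.prod_mul_distrib]
    refine Finset.prod_eq_one fun v hv => ?_
    have hv0 : 0 < v := Nat.pos_of_ne_zero (mem_erase.1 hv).1
    have h4 := sub_pow_ne (F := F) (q_lt (F := F) hv0)
    simp only [hx, pow_zero, pow_one] at h4 ⊢
    exact mul_inv_cancel₀ fun h => h4 (by linear_combination -h)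
  have hy' : y = (th F ^ (Fintype.card F ^ j)) ^ (Fintype.card F ^ E) := by
    rw [hy, ← pow_mul, ← pow_add]
  have hx0 : x 0 = th F := by simp [hx]
  rw [h2, Lam_semi hm, Lam_sum, Finset.sum_eq_single 0, mul_div_assoc]
  · congr 1
    have h5 := hyx 0 h0
    rw [← mul_assoc, h3, one_mul, hx0, Lam, Finset.sum_div]
    rw [hx0, hy'] at h5
    refine Finset.sum_congr rfl fun r hr => ?_
    have hr' := mem_range.1 hr
    rw [hy', U_inv (by omega) _ h5, mul_div_assoc,
      show Fintype.card F ^ E - 1 - (m + r) = M - 1 - r by omega]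
  · intro u hu hu0
    have hu' := mem_range.1 hu
    obtain ⟨z, hz⟩ := weight_pow (F := F) (i := j + E) hu' (by omega)
    rw [show Lagrange.nodalWeight (range E) x u * (y - x u)⁻¹ = _ from hz, ← mul_assoc,
      ← div_eq_mul_inv]
    exact hk u (by omega) hu' z
  · intro h
    exact absurd h0 h

end Pool.Agent.Carl
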