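import Pool.Agent.Lib.MP_0370b2_nt.CS.Car

/-! The auxiliary operator `Λ`: a counting argument over the finite field. -/

namespace Pool.Agent.Carl

open Finset WithZero

set_option linter.unusedSectionVars false

variable {F : Type} [Field F] [Fintype F]

theorem poly_coeff {h : ℕ} (c : Fin (h + 1) → F) (t : Fin (h + 1)) :
    (∑ t' : Fin (h + 1), (HahnSeries.single (-((t' : ℕ) : ℤ)) (c t') : LaurentSeries F)).coeff
      (-((t : ℕ) : ℤ)) = c t := by
  rw [HahnSeries.coeff_sum, Finset.sum_eq_single t]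
  · exact HahnSeries.coeff_single_same _ _
  · intro t' _ ht
    exact HahnSeries.coeff_single_of_ne fun h' => ht (Fin.ext (by omega))
  · intro h'
    exact absurd (mem_univ t) h'

theorem poly_bd {h : ℕ} (c : Fin (h + 1) → F) :
    (∑ t' : Fin (h + 1), (HahnSeries.single (-((t' : ℕ) : ℤ)) (c t') : LaurentSeries F)) ∈ A F ∧
    Valued.v (∑ t' : Fin (h + 1),
      (HahnSeries.single (-((t' : ℕ) : ℤ)) (c t') : LaurentSeries F)) ≤ exp (h : ℤ) := by
  refine ⟨fun n hn => ?_, v_le_iff.2 fun n hn => ?_⟩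
  · rw [HahnSeries.coeff_sum]
    exact Finset.sum_eq_zero fun t _ => HahnSeries.coeff_single_of_ne (by omega)
  · rw [HahnSeries.coeff_sum]
    exact Finset.sum_eq_zero fun t _ => HahnSeries.coeff_single_of_ne (by have := t.2; omega)

theorem siegel {ι : Type} [Fintype ι] (E m M h : ℕ) (hm : m + M = Fintype.card F ^ E)
    (P : ι → LaurentSeries F) (δ : ι → ℕ)
    (hP : ∀ i, P i ∈ A F ∧ Valued.v (P i) ≤ exp (((Fintype.card F ^ E : ℕ) : ℤ) * (δ i : ℤ)))
    (hc : ∑ i, (h + δ i + 1) < M * (h + 1)) :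
    ∃ lam : ℕ → LaurentSeries F, (∀ r, lam r ∈ A F ∧ Valued.v (lam r) ≤ exp (h : ℤ)) ∧
      (∃ r < M, lam r ≠ 0) ∧ ∀ i, Lam F E m M lam (P i) = 0 := by
  classical
  let L : (Fin M × Fin (h + 1) → F) → ℕ → LaurentSeries F := fun c r =>
    if hr : r < M then
      ∑ t : Fin (h + 1), HahnSeries.single (-((t : ℕ) : ℤ)) (c (⟨r, hr⟩, t)) else 0
  have hL : ∀ c r, L c r ∈ A F ∧ Valued.v (L c r) ≤ exp (h : ℤ) := by
    intro c r
    simp only [L]
    split_ifs with hr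
    · exact poly_bd fun t => c (⟨r, hr⟩, t)
    · exact ⟨zero_mem _, by simp⟩
  let Φ : (Fin M × Fin (h + 1) → F) → (Σ i : ι, Fin (h + δ i + 1)) → F := fun c x =>
    (Lam F E m M (L c) (P x.1)).coeff (-((x.2 : ℕ) : ℤ))
  obtain ⟨c, c', hne, hcc⟩ := Fintype.exists_ne_map_eq_of_card_lt Φ (by
    simp only [Fintype.card_fun, Fintype.card_sigma, Fintype.card_fin, Fintype.card_prod]
    exact Nat.pow_lt_pow_right Fintype.one_lt_card hc)
  have hl : ∀ r, L c r - L c' r ∈ A F ∧ Valued.v (L c r - L c' r) ≤ exp (h : ℤ) := fun r =>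
    ⟨sub_mem (hL c r).1 (hL c' r).1, Valuation.map_sub_le _ (hL c r).2 (hL c' r).2⟩
  refine ⟨fun r => L c r - L c' r, hl, ?_, fun i => ?_⟩
  · obtain ⟨⟨r, t⟩, hrt⟩ := Function.ne_iff.1 hne
    refine ⟨r, r.2, fun h0 => hrt ?_⟩
    have h1 := congrArg (fun z : LaurentSeries F => z.coeff (-((t : ℕ) : ℤ))) (sub_eq_zero.1 h0)
    simp only [L, dif_pos r.2] at h1
    rwa [poly_coeff fun t => c (⟨r, r.2⟩, t), poly_coeff fun t => c' (⟨r, r.2⟩, t)] at h1
  · have h1 := Lam_mem (lam := fun r => L c r - L c' r) hm (fun r => (hl r).1) (hP i).1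
    have h2 := Lam_val (m := m) (M := M) (lam := fun r => L c r - L c' r)
      (fun r => (hl r).2) (hP i).2
    rw [← Nat.cast_add] at h2
    rw [A_eq_sum h1 h2]
    refine Finset.sum_eq_zero fun t ht => ?_
    have h3 : Lam F E m M (fun r => L c r - L c' r) (P i) =
        Lam F E m M (L c) (P i) - Lam F E m M (L c') (P i) := by
      simp only [Lam, sub_mul, Finset.sum_sub_distrib]
    have h4 := congrFun hcc ⟨i, ⟨t, mem_range.1 ht⟩⟩
    simp only [Φ] at h4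
    rw [h3, HahnSeries.coeff_sub, h4, sub_self, map_zero]

theorem geom_bd {q : ℕ} (hq : 3 ≤ q) (n : ℕ) : 2 * ∑ i ∈ range n, q ^ i + 1 ≤ q ^ n := by
  induction n with
  | zero => simp
  | succ n ih => rw [Finset.sum_range_succ, pow_succ]; nlinarith [Nat.zero_le (q ^ n)]

theorem count_bd {q E M : ℕ} (hq : 3 ≤ q) (hE : 1 ≤ E) (hM : 3 * q ^ E ≤ 5 * M) :
    ∑ u : Fin E, q ^ (E - 1 - u) * (30 * E ^ 2 + (E + (u + 1) * q ^ (u + 1 : ℕ) + 1) + 1) <
      M * (30 * E ^ 2 + 1) := by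
  have h1 : ∀ u : Fin E,
      q ^ (E - 1 - u) * (30 * E ^ 2 + (E + (u + 1) * q ^ (u + 1 : ℕ) + 1) + 1) ≤
        (30 * E ^ 2 + 1) * q ^ (E - 1 - u) + 3 * E * q ^ E := by
    intro u
    have hu := u.2
    have h2 : q ^ E = q ^ (E - 1 - u) * q ^ (u + 1 : ℕ) := by
      rw [← pow_add]; congr 1; omega
    have h3 : 1 ≤ q ^ (u + 1 : ℕ) := Nat.one_le_pow _ _ (by omega)
    have h4 : E + (u + 1) * q ^ (u + 1 : ℕ) + 1 ≤ 3 * E * q ^ (u + 1 : ℕ) := by
      have : (u + 1) * q ^ (u + 1 : ℕ) ≤ E * q ^ (u + 1 : ℕ) := Nat.mul_le_mul_right _ hu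
      nlinarith
    have h5 := Nat.mul_le_mul_left (q ^ (E - 1 - u)) h4
    rw [h2]
    nlinarith
  refine lt_of_le_of_lt (Finset.sum_le_sum fun u _ => h1 u) ?_
  rw [Finset.sum_add_distrib, ← Finset.mul_sum, Finset.sum_const, card_univ, Fintype.card_fin,
    Fin.sum_univ_eq_sum_range (fun u => q ^ (E - 1 - u)) E, Finset.sum_range_reflect (q ^ ·) E,
    smul_eq_mul]
  have h6 := geom_bd hq E
  set S := ∑ i ∈ range E, q ^ i
  set Q := q ^ E
  have h7 := Nat.mul_le_mul_left (30 * E ^ 2 + 1) h6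
  have h8 := Nat.mul_le_mul_left (30 * E ^ 2 + 1) hM
  nlinarith [Nat.zero_le (E ^ 2), Nat.zero_le Q]

theorem sieg : SiegStmt F := by
  intro hq E m M hE hm h5
  set q := Fintype.card F with hqd
  have hQ : 1 ≤ q ^ E := q_pos E
  obtain ⟨lam, h1, h2, h3⟩ := siegel (F := F) (ι := Σ u : Fin E, Fin (q ^ (E - 1 - u))) E m M
    (30 * E ^ 2) hm
    (fun x => ell F E * D F (x.1 + 1) ^ (q ^ E - 1) * (th F ^ (x.2 : ℕ)) ^ (q ^ (x.1 + 1 : ℕ)))
    (fun x => E + (x.1 + 1) * q ^ (x.1 + 1 : ℕ) + 1) (fun x => by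
      obtain ⟨u, j⟩ := x
      refine ⟨mul_mem (mul_mem (ell_mem E) (pow_mem (D_mem _) _))
        (pow_mem (pow_mem th_mem _) _), ?_⟩
      have hu := u.2
      have hj := j.2
      have e1 : q ^ E = q ^ (E - 1 - u) * q ^ (u + 1 : ℕ) := by
        rw [← pow_add]; congr 1; omega
      have e2 : (j : ℕ) * q ^ (u + 1 : ℕ) ≤ q ^ E := by
        rw [e1]; exact Nat.mul_le_mul_right _ hj.le
      rw [map_mul, map_mul, map_pow, v_D, ← pow_mul, v_th_pow, ← exp_nsmul]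
      refine (mul_le_mul' (mul_le_mul' (v_ell E) le_rfl) le_rfl).trans ?_
      rw [← exp_add, ← exp_add, exp_le_exp, nsmul_eq_mul, ← hqd]
      have e3 := Nat.mul_le_mul_right ((u + 1) * q ^ (u + 1 : ℕ)) (Nat.sub_le (q ^ E) 1)
      have e4 : E * q ^ E + (q ^ E - 1) * ((u + 1) * q ^ (u + 1 : ℕ)) + j * q ^ (u + 1 : ℕ) ≤
          q ^ E * (E + (u + 1) * q ^ (u + 1 : ℕ) + 1) := by nlinarith
      exact_mod_cast e4)
    (by
      rw [Fintype.sum_sigma]
      simp only [Finset.sum_const, card_univ, Fintype.card_fin, smul_eq_mul]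
      exact count_bd hq hE (by omega))
  refine ⟨lam, h1, h2, fun u hu1 huE z => ?_⟩
  obtain ⟨u, rfl⟩ : ∃ u', u = u' + 1 := ⟨u - 1, by omega⟩
  have e1 : q ^ (E - 1 - u) * q ^ (u + 1) = q ^ E := by
    rw [← pow_add]; congr 1; omega
  rw [U_decomp (E - 1 - u) z, frob_sum, Finset.mul_sum, Lam_sum]
  refine Finset.sum_eq_zero fun j hj => ?_
  have h4 := h3 ⟨⟨u, by omega⟩, ⟨j, mem_range.1 hj⟩⟩
  simp only at h4
  have e2 : ell F E / D F (u + 1) *
      (th F ^ j * U F (E - 1 - u) j z ^ q ^ (E - 1 - u)) ^ q ^ (u + 1) =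
      (U F (E - 1 - u) j z / D F (u + 1)) ^ q ^ E *
        (ell F E * D F (u + 1) ^ (q ^ E - 1) * (th F ^ j) ^ q ^ (u + 1)) := by
    have e3 : D F (u + 1) ^ q ^ E = D F (u + 1) ^ (q ^ E - 1) * D F (u + 1) := by
      rw [← pow_succ]; congr 1; omega
    have e4 := D_ne (F := F) (u + 1)
    rw [mul_pow, ← pow_mul (U F (E - 1 - u) j z), e1, div_pow, e3]
    field_simp
  rw [e2, Lam_semi hm, h4, mul_zero]

end Pool.Agent.Carl
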